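import Mathlib

/-! Finitary right invariant closure operators on a group: half-groups, potentials. -/

set_option autoImplicit false

namespace Pool.Agent.MP_b50e26_gt.Nil

open Set Pointwise

variable {G : Type*} [Group G]

/-- A finitary closure operator on a group that commutes with right translations. -/
structure Clo (G : Type*) [Group G] where
  cl : Set G → Set G
  sub : ∀ A, A ⊆ cl A
  trans : ∀ A B, B ⊆ cl A → cl B ⊆ cl A
  fin : ∀ A b, b ∈ cl A → ∃ F : Finset G, (F : Set G) ⊆ A ∧ b ∈ cl F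
  mul : ∀ A b t, b ∈ cl A → b * t ∈ cl (A * {t})

namespace Clo

variable (c : Clo G)

theorem mono {A B : Set G} (h : A ⊆ B) : c.cl A ⊆ c.cl B :=
  c.trans B A (h.trans (c.sub B))

def Gen (S : Set G) : Prop := ∀ g, g ∈ c.cl S

theorem Gen.of_sub {c : Clo G} {S T : Set G} (h : c.Gen S) (hs : S ⊆ c.cl T) : c.Gen T :=
  fun g => c.trans T S hs (h g)

theorem Gen.mono {c : Clo G} {S T : Set G} (h : c.Gen S) (hs : S ⊆ T) : c.Gen T :=
  h.of_sub (hs.trans (c.sub T))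

theorem Gen.mul {c : Clo G} {S : Set G} (h : c.Gen S) (t : G) : c.Gen (S * {t}) := by
  intro g
  have := c.mul S (g * t⁻¹) t (h _)
  simpa using this

theorem push {P Q : Set G} (h : P ⊆ c.cl Q) (T : Set G) : P * T ⊆ c.cl (Q * T) := by
  rintro _ ⟨p, hp, t, ht, rfl⟩
  exact c.mono (mul_subset_mul_left (singleton_subset_iff.2 ht)) (c.mul Q p t (h hp))

theorem fin2 (F : Finset G) {P S : Set G} (h : (F : Set G) ⊆ c.cl (P * S)) :
    ∃ D : Finset G, (D : Set G) ⊆ S ∧ (F : Set G) ⊆ c.cl (P * D) := by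
  classical
  have h1 : ∀ E : Finset G, (E : Set G) ⊆ P * S →
      ∃ D : Finset G, (D : Set G) ⊆ S ∧ (E : Set G) ⊆ P * D := by
    intro E
    induction E using Finset.induction_on with
    | empty => intro _; exact ⟨∅, by simp, by simp⟩
    | insert a E _ ih =>
      intro hE
      rw [Finset.coe_insert, insert_subset_iff] at hE
      obtain ⟨D, hD, hED⟩ := ih hE.2
      obtain ⟨p, hp, s, hs, rfl⟩ := hE.1
      refine ⟨insert s D, by rw [Finset.coe_insert]; exact insert_subset hs hD, ?_⟩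
      rw [Finset.coe_insert, Finset.coe_insert]
      exact insert_subset (mul_mem_mul hp (mem_insert _ _))
        (hED.trans (mul_subset_mul_left (subset_insert _ _)))
  induction F using Finset.induction_on with
  | empty => exact ⟨∅, by simp, by simp⟩
  | insert a F _ ih =>
    rw [Finset.coe_insert, insert_subset_iff] at h
    obtain ⟨D, hD, hFD⟩ := ih h.2
    obtain ⟨E, hE, ha⟩ := c.fin _ _ h.1
    obtain ⟨D', hD', hED'⟩ := h1 E hE
    refine ⟨D ∪ D', by rw [Finset.coe_union]; exact union_subset hD hD', ?_⟩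
    rw [Finset.coe_insert, Finset.coe_union]
    exact insert_subset (c.mono (hED'.trans (mul_subset_mul_left subset_union_right)) ha)
      (hFD.trans (c.mono (mul_subset_mul_left subset_union_left)))

end Clo

/-- `ψ` is additive on the subgroup `A`. -/
def IsChar (A : Subgroup G) (ψ : G → ℝ) : Prop := ∀ a ∈ A, ∀ b ∈ A, ψ (a * b) = ψ a + ψ b

theorem IsChar.one {A : Subgroup G} {ψ : G → ℝ} (h : IsChar A ψ) : ψ 1 = 0 := by
  have := h 1 A.one_mem 1 A.one_mem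
  rw [one_mul] at this; linarith

theorem IsChar.inv {A : Subgroup G} {ψ : G → ℝ} (h : IsChar A ψ) {a : G} (ha : a ∈ A) :
    ψ a⁻¹ = -ψ a := by
  have := h a ha a⁻¹ (A.inv_mem ha)
  rw [mul_inv_cancel, h.one] at this; linarith

theorem IsChar.pow {A : Subgroup G} {ψ : G → ℝ} (h : IsChar A ψ) {a : G} (ha : a ∈ A) (n : ℕ) :
    ψ (a ^ n) = n * ψ a := by
  induction n with
  | zero => simp [h.one]
  | succ n ih => rw [pow_succ, h _ (A.pow_mem ha n) _ ha, ih]; push_cast; ring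

theorem IsChar.zpow {A : Subgroup G} {ψ : G → ℝ} (h : IsChar A ψ) {a : G} (ha : a ∈ A) (n : ℤ) :
    ψ (a ^ n) = n * ψ a := by
  obtain ⟨m, rfl | rfl⟩ := n.eq_nat_or_neg
  · rw [zpow_natCast, h.pow ha]; simp
  · rw [zpow_neg, zpow_natCast, h.inv (A.pow_mem ha m), h.pow ha]; simp

theorem IsChar.big {A : Subgroup G} {ψ : G → ℝ} (h : IsChar A ψ) (h0 : ∃ a ∈ A, ψ a ≠ 0)
    (ρ : ℝ) : ∃ t ∈ A, ρ < ψ t := by
  obtain ⟨a, ha, h0⟩ := h0
  have h1 : ∃ b ∈ A, 0 < ψ b := by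
    rcases lt_or_gt_of_ne h0 with h2 | h2
    · exact ⟨a⁻¹, A.inv_mem ha, by rw [h.inv ha]; linarith⟩
    · exact ⟨a, ha, h2⟩
  obtain ⟨b, hb, h2⟩ := h1
  obtain ⟨n, hn⟩ := exists_nat_gt (ρ / ψ b)
  refine ⟨b ^ n, A.pow_mem hb n, ?_⟩
  rw [h.pow hb]; rwa [div_lt_iff₀ h2] at hn

/-- The half-group of `ψ` in `A`, shifted by `ρ`. -/
def Half (A : Subgroup G) (ψ : G → ℝ) (ρ : ℝ) : Set G := {a | a ∈ A ∧ -ρ ≤ ψ a}

namespace Clo

variable (c : Clo G)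

def Exp (A : Subgroup G) (ψ : G → ℝ) : Prop := ∃ F : Finset G, c.Gen ((F : Set G) * Half A ψ 0)

def Pos (F : Finset G) (A : Subgroup G) (ψ : G → ℝ) : Prop :=
  ∃ D : Finset G, (D : Set G) ⊆ A ∧ (F : Set G) ⊆ c.cl ((F : Set G) * D) ∧ ∀ d ∈ D, 0 < ψ d

theorem Exp.congr {c : Clo G} {A : Subgroup G} {ψ φ : G → ℝ} (h : c.Exp A ψ)
    (hs : ∀ a ∈ A, 0 ≤ ψ a → 0 ≤ φ a) : c.Exp A φ := by
  obtain ⟨F, hF⟩ := h
  refine ⟨F, hF.mono (mul_subset_mul_left ?_)⟩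
  rintro a ⟨ha, h0⟩
  exact ⟨ha, by simpa using hs a ha (by simpa using h0)⟩

theorem Exp.gen {c : Clo G} {A : Subgroup G} {ψ : G → ℝ} (h : c.Exp A ψ) :
    ∃ F : Finset G, c.Gen ((F : Set G) * A) := by
  obtain ⟨F, hF⟩ := h
  exact ⟨F, hF.mono (mul_subset_mul_left fun a ha => ha.1)⟩

theorem exp_of_shift {A : Subgroup G} {ψ : G → ℝ} (h : IsChar A ψ) {F : Finset G} {ρ : ℝ}
    (hF : c.Gen ((F : Set G) * Half A ψ ρ)) : c.Exp A ψ := by
  by_cases h0 : ∃ a ∈ A, ψ a ≠ 0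
  · obtain ⟨t, ht, hρ⟩ := h.big h0 ρ
    refine ⟨F, (hF.mul t).mono ?_⟩
    rw [mul_assoc]
    refine mul_subset_mul_left ?_
    rintro _ ⟨a, ⟨ha, h1⟩, s, hs, rfl⟩
    rw [mem_singleton_iff] at hs; subst hs
    refine ⟨A.mul_mem ha ht, ?_⟩
    show -0 ≤ ψ (a * s)
    rw [h a ha s ht]; linarith
  · push Not at h0
    exact ⟨F, hF.mono (mul_subset_mul_left fun a ha => ⟨ha.1, by simp [h0 a ha.1]⟩)⟩

theorem potential {A : Subgroup G} {F T : Set G} (hF : c.Gen (F * A)) (Φ : G → ℝ)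
    (h0 : ∀ a ∈ A, Φ a < 0 → a ∈ T)
    (h1 : ∀ a ∈ A, a ∈ T ∨ ∃ D : Set G, D ⊆ A ∧ F ⊆ c.cl (F * D) ∧
      ∀ d ∈ D, Φ (d * a) ≤ Φ a - 1) : c.Gen (F * T) := by
  have key : ∀ j : ℕ, ∀ a ∈ A, Φ a < j → F * {a} ⊆ c.cl (F * T) := by
    intro j
    induction j with
    | zero =>
      intro a ha h
      exact (mul_subset_mul_left (singleton_subset_iff.2 (h0 a ha (by simpa using h)))).trans
        (c.sub _)
    | succ j ih =>
      intro a ha h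
      rcases h1 a ha with hT | ⟨D, hD, hFD, hd⟩
      · exact (mul_subset_mul_left (singleton_subset_iff.2 hT)).trans (c.sub _)
      · refine (c.push hFD {a}).trans (c.trans _ _ ?_)
        rintro _ ⟨_, ⟨f, hf, d, hdD, rfl⟩, s, hs, rfl⟩
        rw [mem_singleton_iff] at hs; subst hs
        refine ih (d * s) (A.mul_mem (hD hdD) ha) ?_ ⟨f, hf, d * s, rfl, by simp [mul_assoc]⟩
        have := hd d hdD
        push_cast at h; linarith
  refine hF.of_sub ?_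
  rintro _ ⟨f, hf, a, ha, rfl⟩
  obtain ⟨j, hj⟩ := exists_nat_gt (Φ a)
  exact key j a ha hj ⟨f, hf, a, rfl, rfl⟩

theorem exp_of_pos {A : Subgroup G} {ψ : G → ℝ} (h : IsChar A ψ) {F : Finset G}
    (hF : c.Gen ((F : Set G) * A)) (hp : c.Pos F A ψ) : c.Exp A ψ := by
  obtain ⟨D, hD, hFD, hd⟩ := hp
  obtain ⟨δ, hδ, hδd⟩ : ∃ δ : ℝ, 0 < δ ∧ ∀ d ∈ D, δ ≤ ψ d := by
    rcases D.eq_empty_or_nonempty with rfl | hne
    · exact ⟨1, one_pos, by simp⟩
    · obtain ⟨d, hd1, hd2⟩ := D.exists_min_image ψ hne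
      exact ⟨ψ d, hd d hd1, hd2⟩
  refine ⟨F, c.potential hF (fun a => -ψ a / δ) ?_ ?_⟩
  · intro a ha h1
    rw [div_lt_iff₀ hδ] at h1
    exact ⟨ha, by linarith⟩
  · intro a ha
    refine Or.inr ⟨D, hD, hFD, fun d hdD => ?_⟩
    have := hδd d hdD
    show -ψ (d * a) / δ ≤ -ψ a / δ - 1
    rw [h d (hD hdD) a ha, div_le_iff₀ hδ, sub_mul, div_mul_cancel₀ _ hδ.ne']
    linarith

theorem pos_of_exp {A : Subgroup G} {ψ : G → ℝ} (h : IsChar A ψ) {F : Finset G}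
    (hF : c.Gen ((F : Set G) * A)) (h0 : ∃ a ∈ A, ψ a ≠ 0) (he : c.Exp A ψ) : c.Pos F A ψ := by
  obtain ⟨F1, hF1⟩ := he
  obtain ⟨D', hD', hFD'⟩ := c.fin2 F1 (P := F) (S := A) (fun g _ => hF g)
  obtain ⟨ρ, hρ⟩ : ∃ ρ : ℝ, ∀ d ∈ D', -ρ ≤ ψ d := by
    obtain ⟨ρ, hρ⟩ := (D'.finite_toSet.image ψ).bddBelow
    exact ⟨-ρ, fun d hd => by simpa using hρ ⟨d, hd, rfl⟩⟩
  obtain ⟨t, ht, hρt⟩ := h.big h0 ρ
  have h2 : c.Gen ((F : Set G) * {a | a ∈ A ∧ 0 < ψ a}) := by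
    refine ((hF1.of_sub (c.push hFD' _)).mul t).mono ?_
    rintro _ ⟨_, ⟨_, ⟨f, hf, d, hd, rfl⟩, a, ⟨ha, ha0⟩, rfl⟩, s, hs, rfl⟩
    rw [mem_singleton_iff] at hs; subst hs
    refine ⟨f, hf, d * a * s, ⟨A.mul_mem (A.mul_mem (hD' hd) ha) ht, ?_⟩, by simp [mul_assoc]⟩
    rw [h _ (A.mul_mem (hD' hd) ha) _ ht, h _ (hD' hd) _ ha]
    have := hρ d hd
    linarith
  obtain ⟨D, hD, hFD⟩ := c.fin2 F (fun g _ => h2 g)
  exact ⟨D, fun d hd => (hD hd).1, hFD, fun d hd => (hD hd).2⟩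

end Clo

end Pool.Agent.MP_b50e26_gt.Nil
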