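import Mathlib
import Pool.Agent.MP_b50e26_gt.Nil.Clo

/-! Half-strips (a two-dimensional Boyle-Lind argument) and compactness of the set of
non-expansive characters. -/

set_option autoImplicit false

namespace Pool.Agent.MP_b50e26_gt.Nil

open Set Pointwise Filter Topology

variable {G : Type*} [Group G]

namespace Clo

variable (c : Clo G)

theorem strip {A : Subgroup G} {ψ χ : G → ℝ} (hψ : IsChar A ψ) (hχ : IsChar A χ) {F : Finset G}
    (hF : c.Gen ((F : Set G) * A))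
    (h : ∀ α β : ℝ, α ^ 2 + β ^ 2 = 1 → 0 ≤ α → ((∀ a ∈ A, ψ a = 0) → α = 0) →
      c.Pos F A (fun g => α * ψ g + β * χ g)) :
    ∃ ρ : ℝ, c.Gen ((F : Set G) * {a | a ∈ A ∧ -ρ ≤ ψ a ∧ |χ a| ≤ ρ}) := by
  set Θ : Set (ℝ × ℝ) :=
    {θ | θ.1 ^ 2 + θ.2 ^ 2 = 1 ∧ 0 ≤ θ.1 ∧ ((∀ a ∈ A, ψ a = 0) → θ.1 = 0)} with hΘ
  have hcl : IsClosed Θ := by
    refine (isClosed_eq (by fun_prop) continuous_const).inter
      ((isClosed_le continuous_const continuous_fst).inter ?_)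
    by_cases hP : ∀ a ∈ A, ψ a = 0
    · have : IsClosed {θ : ℝ × ℝ | θ.1 = 0} := isClosed_eq continuous_fst continuous_const
      convert this using 1
      ext θ
      exact ⟨fun h => h hP, fun h _ => h⟩
    · convert isClosed_univ using 1
      ext θ
      exact ⟨fun _ => trivial, fun _ h => absurd h hP⟩
  have hco : IsCompact Θ := by
    refine (isCompact_Icc (a := ((-1 : ℝ), (-1 : ℝ))) (b := (1, 1))).of_isClosed_subset hcl ?_
    rintro ⟨α, β⟩ ⟨h1, -, -⟩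
    simp only at h1
    refine ⟨⟨?_, ?_⟩, ?_, ?_⟩ <;> simp only <;> nlinarith [sq_nonneg α, sq_nonneg β]
  set O : ℕ → Set (ℝ × ℝ) := fun j => {θ | ∃ D : Finset G, (D : Set G) ⊆ A ∧
    (F : Set G) ⊆ c.cl ((F : Set G) * D) ∧ ∀ d ∈ D, 1 / ((j : ℝ) + 1) < θ.1 * ψ d + θ.2 * χ d ∧
      ψ d ^ 2 + χ d ^ 2 < (j : ℝ) + 1} with hO
  have hOo : ∀ j, IsOpen (O j) := by
    intro j
    rw [isOpen_iff_mem_nhds]
    rintro θ ⟨D, h1, h2, h3⟩
    have : ∀ᶠ θ' : ℝ × ℝ in 𝓝 θ, ∀ d ∈ D, 1 / ((j : ℝ) + 1) < θ'.1 * ψ d + θ'.2 * χ d :=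
      (eventually_all_finset D).2 fun d hd =>
        (isOpen_lt continuous_const (by fun_prop)).mem_nhds (h3 d hd).1
    filter_upwards [this] with θ' h4
    exact ⟨D, h1, h2, fun d hd => ⟨h4 d hd, (h3 d hd).2⟩⟩
  have hOm : Monotone O := by
    rintro i j hij θ ⟨D, h1, h2, h3⟩
    have hij' : (i : ℝ) + 1 ≤ (j : ℝ) + 1 := by exact_mod_cast Nat.succ_le_succ hij
    exact ⟨D, h1, h2, fun d hd => ⟨lt_of_le_of_lt
      (one_div_le_one_div_of_le (by positivity) hij') (h3 d hd).1, (h3 d hd).2.trans_le hij'⟩⟩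
  have hcov : Θ ⊆ ⋃ j, O j := by
    rintro ⟨α, β⟩ ⟨h1, h2, h3⟩
    obtain ⟨D, h4, h5, h6⟩ := h α β h1 h2 h3
    have : ∀ᶠ j : ℕ in atTop, ∀ d ∈ D, 1 / ((j : ℝ) + 1) < α * ψ d + β * χ d ∧
        ψ d ^ 2 + χ d ^ 2 < (j : ℝ) + 1 := by
      refine (eventually_all_finset D).2 fun d hd => Eventually.and ?_ ?_
      · exact tendsto_one_div_add_atTop_nhds_zero_nat.eventually (gt_mem_nhds (h6 d hd))
      · exact (tendsto_atTop_add_const_right _ 1
          tendsto_natCast_atTop_atTop).eventually_gt_atTop _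
    obtain ⟨j, hj⟩ := this.exists
    exact mem_iUnion.2 ⟨j, D, h4, h5, hj⟩
  obtain ⟨J, hJ⟩ := hco.elim_directed_cover O hOo hcov hOm.directed_le
  have hJ0 : (0 : ℝ) < (J : ℝ) + 1 := by positivity
  refine ⟨((J : ℝ) + 1) * (J + 2), c.potential hF (fun a => min (ψ a) 0 ^ 2 + χ a ^ 2) ?_ ?_⟩
  · intro a _ h1
    exact absurd h1 (not_lt.2 (by positivity))
  · intro a ha
    set m := min (ψ a) 0 with hm
    have hm0 : m ≤ 0 := min_le_right _ _
    have hm1 : m ≤ ψ a := min_le_left _ _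
    set r := Real.sqrt (m ^ 2 + χ a ^ 2) with hr
    have hr2 : r ^ 2 = m ^ 2 + χ a ^ 2 := Real.sq_sqrt (by positivity)
    have hr0 : 0 ≤ r := Real.sqrt_nonneg _
    by_cases hle : r ≤ ((J : ℝ) + 1) * (J + 2)
    · refine Or.inl ⟨ha, ?_, ?_⟩
      · have : |m| ≤ r := abs_le_of_sq_le_sq' (by nlinarith [sq_nonneg (χ a)]) hr0 |> abs_le.2
        have := (abs_le.1 this).1
        linarith
      · have : |χ a| ≤ r := abs_le_of_sq_le_sq' (by nlinarith [sq_nonneg m]) hr0 |> abs_le.2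
        linarith
    · push Not at hle
      have hrp : 0 < r := lt_of_le_of_lt (by positivity) hle
      obtain ⟨D, h1, h2, h3⟩ := hJ (show (-m / r, -χ a / r) ∈ Θ from ⟨by
        simp only; field_simp; linarith, div_nonneg (by linarith) hr0, fun hz => by
        simp [hm, hz a ha]⟩)
      refine Or.inr ⟨D, h1, h2, fun d hd => ?_⟩
      obtain ⟨h4, h5⟩ := h3 d hd
      simp only at h4
      show min (ψ (d * a)) 0 ^ 2 + χ (d * a) ^ 2 ≤ m ^ 2 + χ a ^ 2 - 1
      rw [hψ d (h1 hd) a ha, hχ d (h1 hd) a ha]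
      have h6 : min (ψ d + ψ a) 0 ^ 2 ≤ (m + ψ d) ^ 2 := by
        rcases le_total (ψ d + ψ a) 0 with h7 | h7
        · rw [min_eq_left h7]; nlinarith
        · rw [min_eq_right h7]; nlinarith [sq_nonneg (m + ψ d)]
      have h7 : r / ((J : ℝ) + 1) < -(m * ψ d + χ a * χ d) := by
        have e : -m / r * ψ d + -χ a / r * χ d = -(m * ψ d + χ a * χ d) / r := by ring
        rw [e, lt_div_iff₀ hrp] at h4
        rwa [one_div_mul_eq_div] at h4
      have h8 : (J : ℝ) + 2 < r / ((J : ℝ) + 1) := by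
        rw [lt_div_iff₀ hJ0]; linarith
      nlinarith

/-- Normalised non-expansive characters. -/
def Bad (S : Finset G) (A : Subgroup G) : Set (G → ℝ) :=
  {ψ | (IsChar A ψ ∧ (∀ g, g ∉ A → ψ g = 0) ∧ ∑ s ∈ S, |ψ s| = 1) ∧ ¬ c.Exp A ψ}

theorem isCompact_bad {S : Finset G} {A : Subgroup G} (hS : Subgroup.closure (S : Set G) = A)
    {F : Finset G} (hF : c.Gen ((F : Set G) * A)) : IsCompact (c.Bad S A) := by
  set N : Set (G → ℝ) :=
    {ψ | IsChar A ψ ∧ (∀ g, g ∉ A → ψ g = 0) ∧ ∑ s ∈ S, |ψ s| = 1} with hN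
  have hb : ∀ g : G, ∃ l : ℝ, ∀ ψ ∈ N, |ψ g| ≤ l := by
    intro g
    by_cases hg : g ∈ A
    · rw [← hS] at hg
      induction hg using Subgroup.closure_induction with
      | mem s hs =>
        exact ⟨1, fun ψ hψ => hψ.2.2 ▸
          Finset.single_le_sum (f := fun s => |ψ s|) (fun _ _ => abs_nonneg _) hs⟩
      | one => exact ⟨0, fun ψ hψ => by simp [hψ.1.one]⟩
      | mul x y hx hy ihx ihy =>
        obtain ⟨l1, h1⟩ := ihx
        obtain ⟨l2, h2⟩ := ihy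
        refine ⟨l1 + l2, fun ψ hψ => ?_⟩
        rw [hψ.1 x (hS ▸ hx) y (hS ▸ hy)]
        exact (abs_add_le _ _).trans (add_le_add (h1 ψ hψ) (h2 ψ hψ))
      | inv x hx ih =>
        obtain ⟨l, h1⟩ := ih
        exact ⟨l, fun ψ hψ => by rw [hψ.1.inv (hS ▸ hx), abs_neg]; exact h1 ψ hψ⟩
    · exact ⟨0, fun ψ hψ => by simp [hψ.2.1 g hg]⟩
  choose l hl using hb
  have hNc : IsClosed N := by
    refine IsClosed.inter ?_ (IsClosed.inter ?_ (isClosed_eq (by fun_prop) continuous_const))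
    · show IsClosed {ψ : G → ℝ | ∀ a ∈ A, ∀ b ∈ A, ψ (a * b) = ψ a + ψ b}
      simp only [ofPred_forall]
      exact isClosed_iInter fun a => isClosed_iInter fun _ => isClosed_iInter fun b =>
        isClosed_iInter fun _ => isClosed_eq (by fun_prop) (by fun_prop)
    · show IsClosed {ψ : G → ℝ | ∀ g, g ∉ A → ψ g = 0}
      simp only [ofPred_forall]
      exact isClosed_iInter fun a => isClosed_iInter fun _ =>
        isClosed_eq (by fun_prop) continuous_const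
  have hNco : IsCompact N :=
    (isCompact_univ_pi fun g => isCompact_Icc (a := -l g) (b := l g)).of_isClosed_subset hNc
      fun ψ hψ g _ => abs_le.1 (hl g ψ hψ)
  have hPo : IsOpen {ψ : G → ℝ | c.Pos F A ψ} := by
    rw [isOpen_iff_mem_nhds]
    rintro ψ ⟨D, h1, h2, h3⟩
    have : ∀ᶠ φ : G → ℝ in 𝓝 ψ, ∀ d ∈ D, 0 < φ d :=
      (eventually_all_finset D).2 fun d hd =>
        (isOpen_lt continuous_const (continuous_apply d)).mem_nhds (h3 d hd)
    filter_upwards [this] with φ h4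
    exact ⟨D, h1, h2, h4⟩
  have : c.Bad S A = N ∩ {ψ : G → ℝ | c.Pos F A ψ}ᶜ := by
    ext ψ
    refine ⟨fun h => ⟨h.1, fun hp => h.2 (c.exp_of_pos h.1.1 hF hp)⟩,
      fun h => ⟨h.1, fun he => h.2 (c.pos_of_exp h.1.1 hF ?_ he)⟩⟩
    by_contra h0
    push Not at h0
    have h1 := h.1.2.2
    rw [Finset.sum_eq_zero fun s hs => by
      rw [h0 s (hS ▸ Subgroup.subset_closure hs), abs_zero]] at h1
    exact zero_ne_one h1
  rw [this]
  exact hNco.inter_right hPo.isClosed_compl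

theorem normalise {S : Finset G} {A : Subgroup G} (hS : Subgroup.closure (S : Set G) = A)
    {ψ : G → ℝ} (hψ : IsChar A ψ) (h0 : ∃ a ∈ A, ψ a ≠ 0) (he : ¬ c.Exp A ψ) :
    ∃ φ ∈ c.Bad S A, ∃ r : ℝ, 0 < r ∧ ∀ a ∈ A, ψ a = r * φ a := by
  classical
  have hSA : ∀ s ∈ S, s ∈ A := fun s hs => hS ▸ Subgroup.subset_closure hs
  have hr : 0 < ∑ s ∈ S, |ψ s| := by
    by_contra h1
    have h2 : ∑ s ∈ S, |ψ s| = 0 :=
      le_antisymm (not_lt.1 h1) (Finset.sum_nonneg fun _ _ => abs_nonneg _)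
    rw [Finset.sum_eq_zero_iff_of_nonneg fun _ _ => abs_nonneg _] at h2
    obtain ⟨a, ha, h3⟩ := h0
    refine h3 ?_
    clear h3
    rw [← hS] at ha
    induction ha using Subgroup.closure_induction with
    | mem s hs => exact abs_eq_zero.1 (h2 s hs)
    | one => exact hψ.one
    | mul x y hx hy ihx ihy => rw [hψ x (hS ▸ hx) y (hS ▸ hy), ihx, ihy, add_zero]
    | inv x hx ih => rw [hψ.inv (hS ▸ hx), ih, neg_zero]
  set r := ∑ s ∈ S, |ψ s| with hrd
  refine ⟨fun g => if g ∈ A then ψ g / r else 0, ⟨⟨?_, ?_, ?_⟩, ?_⟩, r, hr, ?_⟩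
  · intro a ha b hb
    simp only [ha, hb, A.mul_mem ha hb, if_true, hψ a ha b hb, add_div]
  · intro g hg
    simp only [hg, if_false]
  · rw [Finset.sum_congr rfl (g := fun s => |ψ s| / r) fun s hs => by
      simp only [hSA s hs, if_true, abs_div, abs_of_pos hr]]
    rw [← Finset.sum_div, div_self hr.ne']
  · intro h1
    refine he (h1.congr fun a ha h2 => ?_)
    simp only [ha, if_true] at h2
    exact (div_nonneg_iff.1 h2).elim (fun h => h.1) fun h => absurd h.2 (not_le.2 hr)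
  · intro a ha
    simp only [ha, if_true]
    field_simp

end Clo

end Pool.Agent.MP_b50e26_gt.Nil
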