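import Mathlib.Topology.Defs.Basic
import Mathlib.Algebra.Group.Action.Defs
import Mathlib.Data.Set.Lattice
import Mathlib.Data.Finset.Defs

/-! Refinement expansive sets of group elements. -/

set_option autoImplicit false

namespace Pool.Agent.MP_b50e26_gt.Nil

/-- The set `S` of elements of a group `G` acting on the space `X` is refinement expansive: there
is a finite open cover `U` such that for every open cover `V` and every choice of indices `k` there
is a finite `F ⊆ S` with the intersection of the sets `g⁻¹ U (k g)`, `g ∈ F`, contained in a member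
of `V`. -/
def RefExp (X : Type*) [TopologicalSpace X] {G : Type*} [Group G] [MulAction G X] (S : Set G) :
    Prop :=
  ∃ (n : ℕ) (U : Fin n → Set X), (∀ i, IsOpen (U i)) ∧ ⋃ i, U i = Set.univ ∧
    ∀ V : Set (Set X), (∀ C ∈ V, IsOpen C) → ⋃₀ V = Set.univ → ∀ k : G → Fin n,
      ∃ F : Finset G, (F : Set G) ⊆ S ∧ ∃ C ∈ V, {x : X | ∀ g ∈ F, g • x ∈ U (k g)} ⊆ C

end Pool.Agent.MP_b50e26_gt.Nil
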