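import Mathlib
import Pool.Agent.MP_b50e26_gt.Nil.BL

/-! Passing from `A = ⟨y⟩ B` to the normal subgroup `B`. -/

set_option autoImplicit false

namespace Pool.Agent.MP_b50e26_gt.Nil

open Set Pointwise Filter Topology

variable {G : Type*} [Group G]

/-- `A = ⟨y⟩ B` with `B` normalised by `y`. -/
structure Cyc (A B : Subgroup G) (y : G) : Prop where
  le : B ≤ A
  mem : y ∈ A
  conj : ∀ b ∈ B, y * b * y⁻¹ ∈ B
  conj' : ∀ b ∈ B, y⁻¹ * b * y ∈ B
  dec : ∀ g ∈ A, ∃ k : ℤ, ∃ b ∈ B, g = y ^ k * b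

theorem Cyc.conjz {A B : Subgroup G} {y : G} (h : Cyc A B y) {ψ : G → ℝ}
    (hi : ∀ b ∈ B, ψ (y * b * y⁻¹) = ψ b) (k : ℤ) :
    ∀ b ∈ B, (y ^ k)⁻¹ * b * y ^ k ∈ B ∧ ψ ((y ^ k)⁻¹ * b * y ^ k) = ψ b := by
  induction k using Int.induction_on with
  | zero => intro b hb; simpa using hb
  | succ k ih =>
    intro b hb
    obtain ⟨h1, h2⟩ := ih b hb
    have e : (y ^ ((k : ℤ) + 1))⁻¹ * b * y ^ ((k : ℤ) + 1) =
        y⁻¹ * ((y ^ (k : ℤ))⁻¹ * b * y ^ (k : ℤ)) * y := by group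
    rw [e]
    refine ⟨h.conj' _ h1, ?_⟩
    rw [← h2, ← hi _ (h.conj' _ h1)]
    congr 1; group
  | pred k ih =>
    intro b hb
    obtain ⟨h1, h2⟩ := ih b hb
    have e : (y ^ (-(k : ℤ) - 1))⁻¹ * b * y ^ (-(k : ℤ) - 1) =
        y * ((y ^ (-(k : ℤ)))⁻¹ * b * y ^ (-(k : ℤ))) * y⁻¹ := by group
    rw [e]
    exact ⟨h.conj _ h1, by rw [hi _ h1, h2]⟩

theorem Cyc.extend {A B : Subgroup G} {y : G} (h : Cyc A B y) {ψ : G → ℝ} (hψ : IsChar B ψ)
    (hi : ∀ b ∈ B, ψ (y * b * y⁻¹) = ψ b) (r : ℝ) (hr : ∀ j : ℤ, y ^ j ∈ B → ψ (y ^ j) = j * r) :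
    ∃ φ : G → ℝ, IsChar A φ ∧ ∀ k : ℤ, ∀ b ∈ B, φ (y ^ k * b) = k * r + ψ b := by
  classical
  have hd : ∀ g : G, ∃ k : ℤ, ∃ b : G, g ∈ A → b ∈ B ∧ g = y ^ k * b := by
    intro g
    by_cases hg : g ∈ A
    · obtain ⟨k, b, hb, e⟩ := h.dec g hg
      exact ⟨k, b, fun _ => ⟨hb, e⟩⟩
    · exact ⟨0, 1, fun h => absurd h hg⟩
  choose K b0 hK using hd
  have key : ∀ k : ℤ, ∀ b ∈ B, (K (y ^ k * b) : ℝ) * r + ψ (b0 (y ^ k * b)) = k * r + ψ b := by
    intro k b hb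
    obtain ⟨h1, h2⟩ := hK (y ^ k * b) (A.mul_mem (A.zpow_mem h.mem k) (h.le hb))
    set l := K (y ^ k * b)
    set b' := b0 (y ^ k * b)
    have e : y ^ (k - l) = b' * b⁻¹ := by
      have : y ^ k = y ^ l * b' * b⁻¹ := by rw [← h2]; group
      rw [sub_eq_neg_add, zpow_add, this]; group
    have h3 := hr (k - l) (e ▸ B.mul_mem h1 (B.inv_mem hb))
    rw [e, hψ _ h1 _ (B.inv_mem hb), hψ.inv hb] at h3
    push_cast at h3
    linarith
  refine ⟨fun g => K g * r + ψ (b0 g), ?_, key⟩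
  intro g hg g' hg'
  obtain ⟨k, b, hb, rfl⟩ := h.dec g hg
  obtain ⟨l, b', hb', rfl⟩ := h.dec g' hg'
  obtain ⟨h1, h2⟩ := h.conjz hi l b hb
  have e : y ^ k * b * (y ^ l * b') = y ^ (k + l) * ((y ^ l)⁻¹ * b * y ^ l * b') := by group
  simp only
  rw [e, key _ _ (B.mul_mem h1 hb'), key _ _ hb, key _ _ hb', hψ _ h1 _ hb', h2]
  push_cast; ring

theorem seq_pos (f : ℕ → ℕ → ℝ) (hf : ∀ j k, f j (k + 1) = f j k + f (j + 1) k) (m : ℕ)
    (h0 : ∀ k, f (m + 1) k = 0) (hp : 0 < f m 0) (i : ℕ) :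
    ∀ j, j + i = m → ∃ ε : ℝ, 0 < ε ∧ ∀ᶠ k in atTop, ε ≤ f j k := by
  induction i with
  | zero =>
    intro j hj
    obtain rfl : j = m := by simpa using hj
    refine ⟨f j 0, hp, Eventually.of_forall fun k => ?_⟩
    induction k with
    | zero => exact le_rfl
    | succ k ih => rw [hf, h0]; linarith
  | succ i ih =>
    intro j hj
    obtain ⟨ε, hε, he⟩ := ih (j + 1) (by omega)
    obtain ⟨k0, hk0⟩ := eventually_atTop.1 he
    have h1 : ∀ n : ℕ, f j k0 + n * ε ≤ f j (k0 + n) := by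
      intro n
      induction n with
      | zero => simp
      | succ n ih2 =>
        rw [← add_assoc, hf]
        have := hk0 (k0 + n) (by omega)
        push_cast; linarith
    obtain ⟨n0, hn0⟩ := exists_nat_gt ((ε - f j k0) / ε)
    rw [div_lt_iff₀ hε] at hn0
    refine ⟨ε, hε, eventually_atTop.2 ⟨k0 + n0, fun k hk => ?_⟩⟩
    obtain ⟨n, rfl⟩ : ∃ n, k = k0 + n := ⟨k - k0, by omega⟩
    have h2 : (n0 : ℝ) ≤ n := by exact_mod_cast (by omega : n0 ≤ n)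
    have := h1 n
    nlinarith

/-- The commutator with `y`. -/
def ad (y a : G) : G := y * a * y⁻¹ * a⁻¹

/-- Conjugation by `y`. -/
def cj (y a : G) : G := y * a * y⁻¹

theorem Cyc.ad_mem {A B : Subgroup G} {y : G} (h : Cyc A B y) (j : ℕ) :
    ∀ b ∈ B, (ad y)^[j] b ∈ B := by
  induction j with
  | zero => intro b hb; exact hb
  | succ j ih => intro b hb; exact ih _ (B.mul_mem (h.conj b hb) (B.inv_mem hb))

theorem Cyc.cj_mem {A B : Subgroup G} {y : G} (h : Cyc A B y) (j : ℕ) :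
    ∀ b ∈ B, (cj y)^[j] b ∈ B := by
  induction j with
  | zero => intro b hb; exact hb
  | succ j ih => intro b hb; exact ih _ (h.conj b hb)

theorem Cyc.char_ad1 {A B : Subgroup G} {y : G} (h : Cyc A B y) {ψ : G → ℝ} (hψ : IsChar B ψ) :
    IsChar B (fun b => ψ (ad y b)) := by
  have h1 : ∀ b ∈ B, ψ (ad y b) = ψ (y * b * y⁻¹) - ψ b := fun b hb => by
    rw [ad, hψ _ (h.conj b hb) _ (B.inv_mem hb), hψ.inv hb]; ring
  intro a ha b hb
  simp only
  have e : y * (a * b) * y⁻¹ = y * a * y⁻¹ * (y * b * y⁻¹) := by group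
  rw [h1 _ ha, h1 _ hb, h1 _ (B.mul_mem ha hb), e, hψ _ (h.conj a ha) _ (h.conj b hb),
    hψ _ ha _ hb]
  ring

theorem Cyc.char_ad {A B : Subgroup G} {y : G} (h : Cyc A B y) {ψ : G → ℝ} (hψ : IsChar B ψ)
    (j : ℕ) : IsChar B (fun b => ψ ((ad y)^[j] b)) := by
  induction j with
  | zero => exact hψ
  | succ j ih => exact h.char_ad1 ih

theorem Cyc.char_cj {A B : Subgroup G} {y : G} (h : Cyc A B y) {ψ : G → ℝ} (hψ : IsChar B ψ)
    (j : ℕ) : IsChar B (fun b => ψ ((cj y)^[j] b)) := by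
  induction j with
  | zero => exact hψ
  | succ j ih =>
    intro a ha b hb
    have e : cj y (a * b) = cj y a * cj y b := by unfold cj; group
    simp only [Function.iterate_succ_apply]
    rw [e]
    exact ih _ (h.conj a ha) _ (h.conj b hb)

theorem Cyc.rec_seq {A B : Subgroup G} {y : G} (h : Cyc A B y) {ψ : G → ℝ} (hψ : IsChar B ψ)
    {a : G} (ha : a ∈ B) (j k : ℕ) :
    ψ ((ad y)^[j] ((cj y)^[k + 1] a)) =
      ψ ((ad y)^[j] ((cj y)^[k] a)) + ψ ((ad y)^[j + 1] ((cj y)^[k] a)) := by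
  have hb := h.cj_mem k a ha
  rw [Function.iterate_succ_apply' (cj y)]
  set b := (cj y)^[k] a
  have e : cj y b = ad y b * b := by unfold cj ad; group
  have := h.char_ad hψ j (ad y b) (h.ad_mem 1 b hb) b hb
  simp only at this
  rw [e, this, Function.iterate_succ_apply (ad y), add_comm]

theorem IsChar.tor {A : Subgroup G} {ψ : G → ℝ} (h : IsChar A ψ) {a : G} (ha : a ∈ A)
    (ho : IsOfFinOrder a) : ψ a = 0 := by
  obtain ⟨n, hn, e⟩ := isOfFinOrder_iff_pow_eq_one.1 ho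
  have h1 := h.pow ha n
  rw [e, h.one] at h1
  exact (mul_eq_zero.1 h1.symm).resolve_left (by exact_mod_cast hn.ne')

theorem Cyc.exists_top {A B : Subgroup G} {y : G} (h : Cyc A B y) {ψ : G → ℝ} (hψ : IsChar B ψ)
    (hn : ∃ c : ℕ, ∀ a, IsOfFinOrder ((ad y)^[c] a)) (h0 : ∃ a ∈ B, ψ a ≠ 0) :
    ∃ m : ℕ, (∀ a ∈ B, ψ ((ad y)^[m + 1] a) = 0) ∧ ∃ a ∈ B, ψ ((ad y)^[m] a) ≠ 0 := by
  by_contra hc
  push Not at hc
  obtain ⟨c, hcn⟩ := hn
  have : ∀ i : ℕ, ∀ m, m + i = c → ∀ a ∈ B, ψ ((ad y)^[m] a) = 0 := by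
    intro i
    induction i with
    | zero => intro m hm a ha; rw [show m = c by omega]; exact hψ.tor (h.ad_mem c a ha) (hcn a)
    | succ i ih => intro m hm; exact hc m (ih (m + 1) (by omega))
  obtain ⟨a, ha, h1⟩ := h0
  exact h1 (this c 0 (by omega) a ha)

theorem Cyc.inv_of_fin {A B : Subgroup G} {y : G} (h : Cyc A B y) {ψ : G → ℝ} (hψ : IsChar B ψ)
    (hn : ∃ c : ℕ, ∀ a, IsOfFinOrder ((ad y)^[c] a)) {e : ℕ} (he : 0 < e) (hy : y ^ e ∈ B) :
    ∀ b ∈ B, ψ (y * b * y⁻¹) = ψ b := by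
  have hφ := h.char_ad hψ 1
  by_cases h0 : ∃ a ∈ B, ψ ((ad y)^[1] a) ≠ 0
  · exfalso
    obtain ⟨m, h1, a, ha, h2⟩ := h.exists_top hφ hn h0
    have hm := h.char_ad hφ m
    obtain ⟨a, ha, h2⟩ := hm.big ⟨a, ha, h2⟩ 0
    have hs := seq_pos (fun j k => ψ ((ad y)^[j] ((cj y)^[k] a))) (h.rec_seq hψ ha) (m + 1)
      (fun k => by
        have := h1 _ (h.cj_mem k a ha)
        rwa [← Function.iterate_add_apply, add_comm] at this)
      (by rwa [← Function.iterate_add_apply, add_comm] at h2) m 1 (by omega)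
    obtain ⟨ε, hε, hev⟩ := hs
    obtain ⟨k0, hk0⟩ := eventually_atTop.1 hev
    have h3 : ∀ n : ℕ, ψ ((cj y)^[k0] a) + n * ε ≤ ψ ((cj y)^[k0 + n] a) := by
      intro n
      induction n with
      | zero => simp
      | succ n ih =>
        have h4 := h.rec_seq hψ ha 0 (k0 + n)
        have h5 := hk0 (k0 + n) (by omega)
        simp only [Function.iterate_zero, id, zero_add] at h4 h5
        rw [← add_assoc, h4]
        push_cast; linarith
    have h4 : ∀ n : ℕ, ∀ b : G, (cj y)^[n] b = y ^ n * b * (y ^ n)⁻¹ := by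
      intro n
      induction n with
      | zero => simp
      | succ n ih => intro b; rw [Function.iterate_succ_apply', ih]; unfold cj; group
    have h5 := h3 e
    have hb := h.cj_mem k0 a ha
    rw [add_comm k0 e, Function.iterate_add_apply, h4 e,
      hψ _ (B.mul_mem hy hb) _ (B.inv_mem hy), hψ _ hy _ hb, hψ.inv hy] at h5
    have : (0 : ℝ) < e := by exact_mod_cast he
    nlinarith
  · push Not at h0
    intro b hb
    have := h0 b hb
    simp only [Function.iterate_one, ad] at this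
    rw [hψ _ (h.conj b hb) _ (B.inv_mem hb), hψ.inv hb] at this
    linarith

end Pool.Agent.MP_b50e26_gt.Nil
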