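import Mathlib
import Pool.Agent.MP_b50e26_gt.Nil.Step

/-! The descent step: a half-space of expansive characters passes from `⟨y⟩ B` to `B`. -/

set_option autoImplicit false

namespace Pool.Agent.MP_b50e26_gt.Nil

open Set Pointwise Filter Topology

variable {G : Type*} [Group G]

namespace Clo

variable (c : Clo G)

/-- All characters of `A` that are non-negative at `w` are expansive. -/
def Hem (A : Subgroup G) (w : G) : Prop :=
  w ∈ A ∧ ∀ ψ : G → ℝ, IsChar A ψ → 0 ≤ ψ w → c.Exp A ψ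

theorem exp_of_cover {B : Subgroup G} {ψ : G → ℝ} (hψ : IsChar B ψ) {F Y : Finset G} {T : Set G}
    {ρ : ℝ} (hF : c.Gen ((F : Set G) * T)) (hT : T ⊆ (Y : Set G) * Half B ψ ρ) : c.Exp B ψ := by
  classical
  refine c.exp_of_shift hψ (F := F * Y) (ρ := ρ) (hF.mono ?_)
  rw [Finset.coe_mul, mul_assoc]
  exact mul_subset_mul_left hT

theorem exp_inv {A B : Subgroup G} {y w : G} (h : Cyc A B y) (hw : w ∈ B) (hA : c.Hem A w)
    {ψ : G → ℝ} (hψ : IsChar B ψ) (hi : ∀ b ∈ B, ψ (y * b * y⁻¹) = ψ b) (h0 : 0 ≤ ψ w) :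
    c.Exp B ψ := by
  classical
  by_cases hfin : ∃ e : ℕ, 0 < e ∧ y ^ e ∈ B
  · obtain ⟨e, he, hy⟩ := hfin
    have he' : (0 : ℝ) < e := by exact_mod_cast he
    obtain ⟨φ, hφ, hφe⟩ := h.extend hψ hi (ψ (y ^ e) / e) fun j hj => by
      have h1 := hψ.pow hj e
      have h2 := hψ.zpow hy j
      have e1 : (y ^ j) ^ e = (y ^ e) ^ j := by
        rw [← zpow_natCast, ← zpow_natCast, ← zpow_mul, ← zpow_mul, mul_comm]
      rw [e1, h2] at h1
      field_simp
      linarith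
    set r := ψ (y ^ e) / e
    obtain ⟨F, hF⟩ := hA.2 φ hφ (by have := hφe 0 w hw; simp at this; linarith)
    refine c.exp_of_cover hψ (Y := (Finset.Ico (0 : ℤ) e).image fun i => y ^ i) (ρ := e * |r|)
      hF ?_
    rintro g ⟨hg, hg0⟩
    obtain ⟨k, b, hb, rfl⟩ := h.dec g hg
    have he0 : (e : ℤ) ≠ 0 := by exact_mod_cast he.ne'
    have h1 := Int.emod_nonneg k he0
    have h2 := Int.emod_lt_of_pos k (show (0 : ℤ) < e by exact_mod_cast he)
    have hb' : (y ^ e) ^ (k / e) * b ∈ B := B.mul_mem (B.zpow_mem hy _) hb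
    have e1 : y ^ k * b = y ^ (k % e) * ((y ^ e) ^ (k / e) * b) := by
      rw [← mul_assoc, ← zpow_natCast, ← zpow_mul, ← zpow_add, Int.emod_add_mul_ediv]
    rw [e1, hφe _ _ hb'] at hg0
    refine ⟨y ^ (k % e), by
      rw [Finset.coe_image]; exact ⟨k % e, by simp [h1, h2], rfl⟩, _, ⟨hb', ?_⟩, e1.symm⟩
    have h3 : ((k % e : ℤ) : ℝ) ≤ e := by exact_mod_cast h2.le
    have h4 : (0 : ℝ) ≤ ((k % e : ℤ) : ℝ) := by exact_mod_cast h1
    nlinarith [le_abs_self r, abs_nonneg r]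
  · have hz : ∀ j : ℤ, y ^ j ∈ B → j = 0 := by
      intro j hj
      by_contra hj0
      refine hfin ⟨j.natAbs, Int.natAbs_pos.2 hj0, ?_⟩
      rcases Int.natAbs_eq j with h1 | h1
      · rw [← zpow_natCast, ← h1]; exact hj
      · have : (j.natAbs : ℤ) = -j := by omega
        rw [← zpow_natCast, this, zpow_neg]; exact B.inv_mem hj
    obtain ⟨φ, hφ, hφe⟩ := h.extend hψ hi 0 fun j hj => by
      obtain rfl := hz j hj
      simp [hψ.one]
    obtain ⟨χ, hχ, hχe⟩ := h.extend (ψ := fun _ => 0) (fun _ _ _ _ => by simp) (fun _ _ => rfl) 1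
      fun j hj => by simp [hz j hj]
    obtain ⟨F, hF⟩ := (hA.2 (fun _ => 0) (fun _ _ _ _ => by simp) le_rfl).gen
    obtain ⟨ρ, hρ⟩ := c.strip hφ hχ hF fun α β h1 h2 h3 => by
      have hc : IsChar A (fun g => α * φ g + β * χ g) := fun a ha b hb => by
        simp only [hφ a ha b hb, hχ a ha b hb]; ring
      refine c.pos_of_exp hc hF ?_ (hA.2 _ hc ?_)
      · by_cases hβ : β = 0
        · have hα : α ≠ 0 := by rintro rfl; simp [hβ] at h1
          by_contra h4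
          push Not at h4
          refine hα (h3 fun a ha => ?_)
          have := h4 a ha
          simpa [hβ, hα] using this
        · refine ⟨y, h.mem, ?_⟩
          have h4 := hφe 1 1 B.one_mem
          have h5 := hχe 1 1 B.one_mem
          simp only [zpow_one, mul_one, hψ.one] at h4 h5
          simp [h4, h5, hβ]
      · have h4 := hφe 0 w hw
        have h5 := hχe 0 w hw
        simp only [zpow_zero, one_mul] at h4 h5
        simp only [h4, h5]
        simpa using mul_nonneg h2 h0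
    refine c.exp_of_cover hψ (Y := (Finset.Icc (-⌈ρ⌉) ⌈ρ⌉).image fun i => y ^ i) (ρ := ρ) hρ ?_
    rintro g ⟨hg, hg0, hg1⟩
    obtain ⟨k, b, hb, rfl⟩ := h.dec g hg
    rw [hφe _ _ hb] at hg0
    rw [hχe _ _ hb, abs_le] at hg1
    have h1 := Int.le_ceil ρ
    have h2 : k ≤ ⌈ρ⌉ := by
      have : (k : ℝ) ≤ (⌈ρ⌉ : ℤ) := by linarith [hg1.2]
      exact_mod_cast this
    have h3 : -⌈ρ⌉ ≤ k := by
      have : ((-⌈ρ⌉ : ℤ) : ℝ) ≤ k := by push_cast; linarith [hg1.1]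
      exact_mod_cast this
    exact ⟨y ^ k, by rw [Finset.coe_image]; exact ⟨k, by simp [h2, h3], rfl⟩, b,
      ⟨hb, by simpa using hg0⟩, rfl⟩

theorem exp_cj {A B : Subgroup G} {y : G} (h : Cyc A B y) (ψ : G → ℝ) (k : ℕ)
    (he : c.Exp B (fun b => ψ ((cj y)^[k] b))) : c.Exp B ψ := by
  classical
  induction k with
  | zero => exact he
  | succ k ih =>
    refine ih ?_
    obtain ⟨F, hF⟩ := he
    refine ⟨F * {y⁻¹}, (hF.mul y⁻¹).mono ?_⟩
    rintro _ ⟨_, ⟨f, hf, a, ⟨ha, h1⟩, rfl⟩, s, hs, rfl⟩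
    rw [mem_singleton_iff] at hs; subst hs
    refine ⟨f * y⁻¹, ?_, y * a * y⁻¹, ⟨h.conj a ha, h1⟩, by simp [mul_assoc]⟩
    rw [Finset.coe_mul]
    exact mul_mem_mul hf (by simp)

theorem lex {A B : Subgroup G} {y w : G} (h : Cyc A B y) (hw : w ∈ B) (hA : c.Hem A w)
    (hn : ∃ c : ℕ, ∀ a, IsOfFinOrder ((ad y)^[c] a)) {ψ : G → ℝ} (hψ : IsChar B ψ)
    (he : ¬ c.Exp B ψ) :
    (∃ a ∈ B, ψ a ≠ 0) ∧ ∃ m : ℕ, ψ ((ad y)^[m] w) < 0 ∧ ∀ j, m < j → ψ ((ad y)^[j] w) = 0 := by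
  have h0 : ∃ a ∈ B, ψ a ≠ 0 := by
    by_contra h1
    push Not at h1
    exact he (c.exp_inv h hw hA hψ (fun b hb => by rw [h1 _ hb, h1 _ (h.conj b hb)])
      (h1 w hw).ge)
  refine ⟨h0, ?_⟩
  obtain ⟨m, h1, h2⟩ := h.exists_top hψ hn h0
  have hφ := h.char_ad hψ m
  refine ⟨m, ?_, fun j hj => ?_⟩
  · by_contra h3
    have h4 := c.exp_inv h hw hA hφ (fun b hb => by
      have := h.rec_seq hψ hb m 0
      simp only [Function.iterate_zero, id, zero_add, Function.iterate_one] at this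
      rw [h1 b hb, add_zero] at this
      exact this) (not_lt.1 h3)
    obtain ⟨F, hF⟩ := h4.gen
    obtain ⟨D, hD, hFD, hd⟩ := c.pos_of_exp hφ hF h2 h4
    have : ∀ᶠ k : ℕ in atTop, ∀ d ∈ D, 0 < ψ ((cj y)^[k] d) := by
      refine (eventually_all_finset D).2 fun d hdD => ?_
      obtain ⟨ε, hε, hev⟩ := seq_pos (fun j k => ψ ((ad y)^[j] ((cj y)^[k] d)))
        (h.rec_seq hψ (hD hdD)) m (fun k => h1 _ (h.cj_mem k d (hD hdD))) (hd d hdD) m 0 (by omega)
      filter_upwards [hev] with k hk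
      exact lt_of_lt_of_le hε hk
    obtain ⟨k, hk⟩ := this.exists
    exact he (c.exp_cj h ψ k (c.exp_of_pos (h.char_cj hψ k) hF ⟨D, hD, hFD, hk⟩))
  · obtain ⟨i, rfl⟩ : ∃ i, j = m + 1 + i := ⟨j - (m + 1), by omega⟩
    rw [Function.iterate_add_apply]
    exact h1 _ (h.ad_mem i w hw)

theorem step_fin {A B : Subgroup G} {y w : G} (h : Cyc A B y) (hw : w ∈ B) (hA : c.Hem A w)
    (hn : ∃ c : ℕ, ∀ a, IsOfFinOrder ((ad y)^[c] a)) {e : ℕ} (he : 0 < e) (hy : y ^ e ∈ B) :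
    c.Hem B w :=
  ⟨hw, fun _ hψ h0 => c.exp_inv h hw hA hψ (h.inv_of_fin hψ hn he hy) h0⟩

theorem step {A B : Subgroup G} {y w : G} (h : Cyc A B y) (hw : w ∈ B) (hA : c.Hem A w)
    (hn : ∃ c : ℕ, ∀ a, IsOfFinOrder ((ad y)^[c] a)) (hB : B.FG) : ∃ v, c.Hem B v := by
  obtain ⟨S, hS⟩ := hB
  obtain ⟨F, hF⟩ := (c.exp_inv h hw hA (ψ := fun _ => 0) (fun _ _ _ _ => by simp)
    (fun _ _ => rfl) le_rfl).gen
  have hK := c.isCompact_bad hS hF
  have key : ∀ m : ℕ, ∃ v ∈ B, ∀ ψ ∈ c.Bad S B, (∀ j, m ≤ j → ψ ((ad y)^[j] w) = 0) → ψ v < 0 := by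
    intro m
    induction m with
    | zero =>
      refine ⟨1, B.one_mem, fun ψ hψ h0 => ?_⟩
      obtain ⟨-, m, h1, -⟩ := c.lex h hw hA hn hψ.1.1 hψ.2
      exact absurd (h0 m (Nat.zero_le m)) h1.ne
    | succ m ih =>
      obtain ⟨v, hv, hv0⟩ := ih
      set u := (ad y)^[m] w with hu
      have hZ : IsClosed {ψ : G → ℝ | ∀ j, m + 1 ≤ j → ψ ((ad y)^[j] w) = 0} := by
        simp only [ofPred_forall]
        exact isClosed_iInter fun a => isClosed_iInter fun _ =>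
          isClosed_eq (by fun_prop) continuous_const
      have hle : ∀ ψ ∈ c.Bad S B, (∀ j, m + 1 ≤ j → ψ ((ad y)^[j] w) = 0) → ψ u ≤ 0 := by
        intro ψ hψ h0
        obtain ⟨-, m', h1, h2⟩ := c.lex h hw hA hn hψ.1.1 hψ.2
        rcases lt_trichotomy m' m with h3 | rfl | h3
        · exact (h2 m h3).le
        · exact h1.le
        · exact absurd (h0 m' h3) h1.ne
      obtain ⟨J, hJ⟩ := (hK.inter_right hZ).elim_directed_cover
        (fun j : ℕ => {ψ : G → ℝ | ψ v + j * min (ψ u) 0 < 0})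
        (fun j => isOpen_lt (by fun_prop) continuous_const) (by
          rintro ψ ⟨hψ, h0⟩
          rcases (hle ψ hψ h0).lt_or_eq with h1 | h1
          · obtain ⟨j, hj⟩ := exists_nat_gt (ψ v / (-ψ u))
            rw [div_lt_iff₀ (by linarith)] at hj
            exact mem_iUnion.2 ⟨j, by
              show ψ v + j * min (ψ u) 0 < 0
              rw [min_eq_left h1.le]; linarith⟩
          · refine mem_iUnion.2 ⟨0, ?_⟩
            have := hv0 ψ hψ fun j hj => by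
              rcases hj.lt_or_eq with h2 | rfl
              · exact h0 j h2
              · exact h1
            simpa using this)
        (Monotone.directed_le fun i j hij ψ (hψ : ψ v + i * min (ψ u) 0 < 0) => by
          show ψ v + j * min (ψ u) 0 < 0
          have h1 : (i : ℝ) ≤ j := by exact_mod_cast hij
          nlinarith [min_le_right (ψ u) 0])
      have hu' : u ∈ B := h.ad_mem m w hw
      refine ⟨v * u ^ J, B.mul_mem hv (B.pow_mem hu' J), fun ψ hψ h0 => ?_⟩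
      have h1 : ψ v + J * min (ψ u) 0 < 0 := hJ ⟨hψ, h0⟩
      rwa [hψ.1.1 _ hv _ (B.pow_mem hu' J), hψ.1.1.pow hu', ← min_eq_left (hle ψ hψ h0)]
  obtain ⟨n, hn'⟩ := hn
  obtain ⟨v, hv, hv0⟩ := key n
  refine ⟨v, hv, fun ψ hψ h0 => ?_⟩
  by_contra he
  obtain ⟨φ, hφ, r, hr, hφe⟩ := c.normalise hS hψ (c.lex h hw hA ⟨n, hn'⟩ hψ he).1 he
  have h1 := hv0 φ hφ fun j hj => by
    obtain ⟨i, rfl⟩ : ∃ i, j = n + i := ⟨j - n, by omega⟩
    refine hφ.1.1.tor (h.ad_mem _ w hw) ?_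
    rw [Function.iterate_add_apply]
    exact hn' _
  rw [hφe v hv] at h0
  nlinarith

end Clo

end Pool.Agent.MP_b50e26_gt.Nil
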