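import Mathlib
import Pool.Agent.MP_b50e26_gt.Nil.Step2

/-! Central series with cyclic factors, and the descent along them. -/

set_option autoImplicit false

namespace Pool.Agent.MP_b50e26_gt.Nil

open Set Pointwise Subgroup

variable {G : Type*} [Group G]

/-- `H` is reached from a finite normal subgroup by adding elements that are central modulo the
previous term. -/
inductive Ser : Subgroup G → Prop
  | bot (E : Subgroup G) : Finite E → E.Normal → Ser E
  | step (a : G) (H : Subgroup G) : Ser H → (∀ x, x * a * x⁻¹ * a⁻¹ ∈ H) → Ser (zpowers a ⊔ H)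

theorem mem_zsup {H : Subgroup G} [H.Normal] {y g : G} :
    g ∈ zpowers y ⊔ H ↔ ∃ k : ℤ, ∃ b ∈ H, g = y ^ k * b := by
  rw [mem_sup_of_normal_right]
  constructor
  · rintro ⟨_, ⟨k, rfl⟩, b, hb, rfl⟩
    exact ⟨k, b, hb, rfl⟩
  · rintro ⟨k, b, hb, rfl⟩
    exact ⟨_, ⟨k, rfl⟩, b, hb, rfl⟩

theorem conj_zsup {H : Subgroup G} [hH : H.Normal] {x w : G} (h : x * w * x⁻¹ ∈ zpowers w ⊔ H) :
    ∀ b ∈ zpowers w ⊔ H, x * b * x⁻¹ ∈ zpowers w ⊔ H := by
  intro b0 hb0
  obtain ⟨k, b, hb, rfl⟩ := mem_zsup.1 hb0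
  have e : x * (w ^ k * b) * x⁻¹ = (x * w * x⁻¹) ^ k * (x * b * x⁻¹) := by
    rw [conj_zpow]; group
  rw [e]
  exact mul_mem (zpow_mem h k) (mem_sup_right (hH.conj_mem b hb x))

theorem comm_iff {K : Subgroup G} [K.Normal] (u x : G) :
    u * x * u⁻¹ * x⁻¹ ∈ K ↔ Commute (QuotientGroup.mk' K u) (QuotientGroup.mk' K x) := by
  rw [← QuotientGroup.eq_one_iff, ← commutatorElement_eq_one_iff_commute,
    ← map_commutatorElement]
  rfl

theorem Ser.normal {H : Subgroup G} (h : Ser H) : H.Normal := by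
  induction h with
  | bot E _ h => exact h
  | step a H _ hc ih =>
    refine ⟨fun b hb x => conj_zsup ?_ b hb⟩
    have e : x * a * x⁻¹ = (x * a * x⁻¹ * a⁻¹) * a := by group
    rw [e]
    exact mul_mem (mem_sup_right (hc x)) (mem_sup_left (mem_zpowers a))

theorem fg_zsup (y : G) {H : Subgroup G} (h : H.FG) : (zpowers y ⊔ H).FG := by
  classical
  obtain ⟨S, hS⟩ := h
  exact ⟨insert y S, by rw [Finset.coe_insert, insert_eq, Subgroup.closure_union, hS, zpowers_eq_closure]⟩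

theorem Ser.fg {H : Subgroup G} (h : Ser H) : H.FG := by
  induction h with
  | bot E _ _ => exact (Group.fg_iff_subgroup_fg E).1 inferInstance
  | step a H _ _ ih => exact fg_zsup a ih

theorem Ser.add {H : Subgroup G} (h : Ser H) (T : Finset G)
    (hT : ∀ t ∈ T, ∀ x, x * t * x⁻¹ * t⁻¹ ∈ H) : Ser (Subgroup.closure (T : Set G) ⊔ H) := by
  classical
  induction T using Finset.induction_on with
  | empty => simpa using h
  | insert a T _ ih =>
    rw [Finset.coe_insert, insert_eq, Subgroup.closure_union, ← zpowers_eq_closure, sup_assoc]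
    exact Ser.step a _ (ih fun t ht => hT t (Finset.mem_insert_of_mem ht))
      fun x => mem_sup_right (hT a (Finset.mem_insert_self _ _) x)

theorem lcs_comm {i : ℕ} {u : G} (hu : u ∈ Subgroup.lowerCentralSeries (⊤ : Subgroup G) i) (x : G) :
    u * x * u⁻¹ * x⁻¹ ∈ Subgroup.lowerCentralSeries (⊤ : Subgroup G) (i + 1) :=
  commutator_mem_commutator hu (mem_top x)

theorem lcs_comm' {i : ℕ} {u : G} (hu : u ∈ Subgroup.lowerCentralSeries (⊤ : Subgroup G) i) (x : G) :
    x * u * x⁻¹ * u⁻¹ ∈ Subgroup.lowerCentralSeries (⊤ : Subgroup G) (i + 1) := by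
  have := inv_mem (lcs_comm hu x)
  have e : (u * x * u⁻¹ * x⁻¹)⁻¹ = x * u * x⁻¹ * u⁻¹ := by group
  rwa [e] at this

theorem lcs_gens {S : Finset G} (hS : Subgroup.closure (S : Set G) = ⊤) (i : ℕ) :
    ∃ T : Finset G, (∀ t ∈ T, t ∈ Subgroup.lowerCentralSeries (⊤ : Subgroup G) i) ∧
      Subgroup.lowerCentralSeries (⊤ : Subgroup G) i ≤
        Subgroup.closure (T : Set G) ⊔ Subgroup.lowerCentralSeries (⊤ : Subgroup G) (i + 1) := by
  classical
  induction i with
  | zero => exact ⟨S, fun _ _ => mem_top _, by rw [hS]; exact le_sup_left⟩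
  | succ i ih =>
    obtain ⟨T, hT, hle⟩ := ih
    have hT' : ∀ t ∈ Finset.image₂ (fun t s : G => t * s * t⁻¹ * s⁻¹) T S,
        t ∈ Subgroup.lowerCentralSeries (⊤ : Subgroup G) (i + 1) := by
      intro t0 ht0
      obtain ⟨t, ht, s, -, rfl⟩ := Finset.mem_image₂.1 ht0
      exact lcs_comm (hT t ht) s
    refine ⟨_, hT', ?_⟩
    set K := Subgroup.closure ((Finset.image₂ (fun t s : G => t * s * t⁻¹ * s⁻¹) T S : Finset G) : Set G) ⊔
      Subgroup.lowerCentralSeries (⊤ : Subgroup G) (i + 1 + 1) with hK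
    have hK1 : K ≤ Subgroup.lowerCentralSeries (⊤ : Subgroup G) (i + 1) :=
      sup_le ((Subgroup.closure_le _).2 fun t ht => hT' t ht)
        (Subgroup.lowerCentralSeries_antitone _ (Nat.le_succ _))
    have : K.Normal := ⟨fun k hk x => by
      have e : x * k * x⁻¹ = (x * k * x⁻¹ * k⁻¹) * k := by group
      rw [e]
      exact mul_mem (mem_sup_right (lcs_comm' (hK1 hk) x)) hk⟩
    have h1 : Subgroup.closure (T : Set G) ⊔ Subgroup.lowerCentralSeries (⊤ : Subgroup G) (i + 1) ≤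
        (Subgroup.center (G ⧸ K)).comap (QuotientGroup.mk' K) := by
      have h2 : ∀ u : G, (∀ x, Commute (QuotientGroup.mk' K u) (QuotientGroup.mk' K x)) →
          u ∈ (Subgroup.center (G ⧸ K)).comap (QuotientGroup.mk' K) := by
        intro u hu
        rw [Subgroup.mem_comap, Subgroup.mem_center_iff]
        intro q
        obtain ⟨x, rfl⟩ := QuotientGroup.mk'_surjective K q
        exact (hu x).symm.eq
      refine sup_le ((Subgroup.closure_le _).2 fun t ht => h2 t fun x => ?_) fun u hu => h2 u fun x =>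
        (comm_iff u x).1 (mem_sup_right (lcs_comm hu x))
      have hx : x ∈ Subgroup.closure (S : Set G) := hS ▸ mem_top x
      induction hx using Subgroup.closure_induction with
      | mem s hs =>
        exact (comm_iff t s).1 (mem_sup_left (Subgroup.subset_closure
          (Finset.mem_coe.2 (Finset.mem_image₂_of_mem ht hs))))
      | one => rw [map_one]; exact Commute.one_right _
      | mul x y _ _ ihx ihy => rw [map_mul]; exact ihx.mul_right ihy
      | inv x _ ih => rw [map_inv]; exact ih.inv_right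
    rw [Subgroup.lowerCentralSeries_succ, commutator_le]
    intro u hu x _
    have h3 := h1 (hle hu)
    rw [Subgroup.mem_comap, Subgroup.mem_center_iff] at h3
    exact (comm_iff u x).2 (h3 _).symm

theorem ser_top [Group.FG G] (hG : ∃ n, Finite (Subgroup.lowerCentralSeries (⊤ : Subgroup G) n)) :
    Ser (⊤ : Subgroup G) := by
  obtain ⟨S, hS⟩ := Group.fg_def.1 ‹Group.FG G›
  obtain ⟨n, hn⟩ := hG
  have : ∀ j i, i + j = n → Ser (Subgroup.lowerCentralSeries (⊤ : Subgroup G) i) := by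
    intro j
    induction j with
    | zero => intro i hi; rw [show i = n by omega]; exact Ser.bot _ hn inferInstance
    | succ j ih =>
      intro i hi
      obtain ⟨T, hT, hle⟩ := lcs_gens hS i
      have h1 := (ih (i + 1) (by omega)).add T fun t ht x => lcs_comm' (hT t ht) x
      rwa [← le_antisymm hle (sup_le ((Subgroup.closure_le _).2 fun t ht => hT t ht)
        (Subgroup.lowerCentralSeries_antitone _ (Nat.le_succ _)))] at h1
  exact this n 0 (by omega)

theorem finOrder_of_mem {E : Subgroup G} [Finite E] {a : G} (ha : a ∈ E) : IsOfFinOrder a :=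
  E.subtype.isOfFinOrder (isOfFinOrder_of_finite (⟨a, ha⟩ : E))

theorem ad_nil (hG : ∃ n, Finite (Subgroup.lowerCentralSeries (⊤ : Subgroup G) n)) (y : G) :
    ∃ c : ℕ, ∀ a, IsOfFinOrder ((ad y)^[c] a) := by
  obtain ⟨n, hn⟩ := hG
  have : ∀ j a, (ad y)^[j] a ∈ Subgroup.lowerCentralSeries (⊤ : Subgroup G) j := by
    intro j
    induction j with
    | zero => intro a; exact mem_top _
    | succ j ih => intro a; rw [Function.iterate_succ_apply']; exact lcs_comm' (ih a) y
  exact ⟨n, fun a => finOrder_of_mem (this n a)⟩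

theorem cyc1 {H : Subgroup G} [hH : H.Normal] (y : G) : Cyc (zpowers y ⊔ H) H y :=
  ⟨le_sup_right, mem_sup_left (mem_zpowers y), fun b hb => hH.conj_mem b hb y,
    fun b hb => hH.conj_mem' b hb y, fun _ hg => mem_zsup.1 hg⟩

theorem cyc2 {H : Subgroup G} [hH : H.Normal] {y w : G} (hw : w ∈ zpowers y ⊔ H) :
    Cyc (zpowers y ⊔ H) (zpowers w ⊔ H) y := by
  obtain ⟨j, b, hb, e⟩ := mem_zsup.1 hw
  refine ⟨sup_le ((zpowers_le).2 hw) le_sup_right, mem_sup_left (mem_zpowers y),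
    conj_zsup ?_, fun b' hb' => ?_, fun g hg => ?_⟩
  · have : y * w * y⁻¹ = w * (b⁻¹ * (y * b * y⁻¹)) := by rw [e]; group
    rw [this]
    exact mul_mem (mem_sup_left (mem_zpowers w))
      (mem_sup_right (mul_mem (inv_mem hb) (hH.conj_mem b hb y)))
  · have h1 : y⁻¹ * w * y⁻¹⁻¹ = w * (b⁻¹ * (y⁻¹ * b * y)) := by rw [e]; group
    have := conj_zsup (H := H) (x := y⁻¹) (w := w) (by
      rw [h1]
      exact mul_mem (mem_sup_left (mem_zpowers w))
        (mem_sup_right (mul_mem (inv_mem hb) (hH.conj_mem' b hb y)))) b' hb'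
    rwa [inv_inv] at this
  · obtain ⟨k, b', hb', rfl⟩ := mem_zsup.1 hg
    exact ⟨k, b', mem_sup_right hb', rfl⟩

theorem cyc3 {H : Subgroup G} [hH : H.Normal] {a : G} (hc : ∀ x, x * a * x⁻¹ * a⁻¹ ∈ H)
    [(zpowers a ⊔ H).Normal] (w : G) :
    Cyc (zpowers w ⊔ (zpowers a ⊔ H)) (zpowers w ⊔ H) a := by
  have hz : ∀ (l : ℤ) (x : G), a ^ l * x * (a ^ l)⁻¹ * x⁻¹ ∈ H := fun l x => by
    rw [comm_iff, map_zpow]
    exact (((comm_iff x a).1 (hc x)).symm).zpow_left l
  have hcj : ∀ l : ℤ, ∀ b ∈ zpowers w ⊔ H, a ^ l * b * (a ^ l)⁻¹ ∈ zpowers w ⊔ H := by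
    intro l b hb
    have e : a ^ l * b * (a ^ l)⁻¹ = (a ^ l * b * (a ^ l)⁻¹ * b⁻¹) * b := by group
    rw [e]
    exact mul_mem (mem_sup_right (hz l b)) hb
  refine ⟨sup_le_sup_left le_sup_right _, mem_sup_right (mem_sup_left (mem_zpowers a)),
    fun b hb => by simpa using hcj 1 b hb, fun b hb => by simpa using hcj (-1) b hb,
    fun g hg => ?_⟩
  obtain ⟨k, b, hb, rfl⟩ := mem_zsup.1 hg
  obtain ⟨l, b', hb', rfl⟩ := mem_zsup.1 hb
  refine ⟨l, a ^ (-l) * w ^ k * (a ^ (-l))⁻¹ * b', mul_mem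
    (hcj (-l) _ (mem_sup_left (zpow_mem (mem_zpowers w) k))) (mem_sup_right hb'), by group⟩

namespace Clo

variable (c : Clo G)

/-- A thickened cyclic monoid generates. -/
def Ray : Prop := ∃ (F : Finset G) (g : G), c.Gen ((F : Set G) * range fun n : ℕ => g ^ n)

theorem ray_of_cover {E : Subgroup G} [Finite E] [hE : E.Normal] {F : Finset G} {T : Set G} (g : G)
    (hF : c.Gen ((F : Set G) * T)) (hT : ∀ t ∈ T, ∃ n : ℕ, ∃ b ∈ E, t = g ^ n * b) : c.Ray := by
  classical
  refine ⟨F * (toFinite (E : Set G)).toFinset, g, hF.mono ?_⟩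
  rw [Finset.coe_mul, mul_assoc, Finite.coe_toFinset]
  refine mul_subset_mul_left fun t ht => ?_
  obtain ⟨n, b, hb, rfl⟩ := hT t ht
  exact ⟨g ^ n * b * (g ^ n)⁻¹, hE.conj_mem b hb _, g ^ n, ⟨n, rfl⟩, by simp⟩

theorem ray_base {E : Subgroup G} [Finite E] [E.Normal] {y w : G}
    (h : c.Hem (zpowers y ⊔ E) w) : c.Ray := by
  by_cases hy : IsOfFinOrder y
  · obtain ⟨F, hF⟩ := (h.2 (fun _ => 0) (fun _ _ _ _ => by simp) le_rfl).gen
    refine c.ray_of_cover (E := E) y hF fun g hg => ?_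
    obtain ⟨k, b, hb, rfl⟩ := mem_zsup.1 hg
    obtain ⟨n, hn⟩ := hy.mem_powers_iff_mem_zpowers.2 (zpow_mem (mem_zpowers y) k)
    exact ⟨n, b, hb, by rw [← hn]⟩
  · have hz : ∀ j : ℤ, y ^ j ∈ E → j = 0 := fun j hj => by
      by_contra hj0
      obtain ⟨m, hm, e⟩ := isOfFinOrder_iff_pow_eq_one.1 (finOrder_of_mem hj)
      exact hy (isOfFinOrder_iff_zpow_eq_one.2 ⟨j * m,
        mul_ne_zero hj0 (by exact_mod_cast hm.ne'), by rw [zpow_mul, zpow_natCast, e]⟩)
    obtain ⟨j, b, hb, e⟩ := mem_zsup.1 h.1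
    have key : ∀ r : ℝ, 0 ≤ j * r → ∃ F : Finset G,
        c.Gen ((F : Set G) * {g | ∃ k : ℤ, ∃ b ∈ E, 0 ≤ k * r ∧ g = y ^ k * b}) := by
      intro r hr
      obtain ⟨χ, hχ, hχe⟩ := (cyc1 (H := E) y).extend (ψ := fun _ => 0)
        (fun _ _ _ _ => by simp) (fun _ _ => rfl) r fun j hj => by simp [hz j hj]
      obtain ⟨F, hF⟩ := h.2 χ hχ (by rw [e, hχe j b hb]; simpa using hr)
      refine ⟨F, hF.mono (mul_subset_mul_left ?_)⟩
      rintro g ⟨hg, h0⟩
      obtain ⟨k, b', hb', rfl⟩ := mem_zsup.1 hg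
      rw [hχe k b' hb'] at h0
      exact ⟨k, b', hb', by simpa using h0, rfl⟩
    rcases le_total 0 j with hj | hj
    · obtain ⟨F, hF⟩ := key 1 (by simpa using hj)
      refine c.ray_of_cover (E := E) y hF ?_
      rintro _ ⟨k, b', hb', hk, rfl⟩
      have hk' : 0 ≤ k := by simpa using hk
      obtain ⟨n, rfl⟩ := Int.eq_ofNat_of_zero_le hk'
      exact ⟨n, b', hb', by simp⟩
    · obtain ⟨F, hF⟩ := key (-1) (by simpa using hj)
      refine c.ray_of_cover (E := E) y⁻¹ hF ?_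
      rintro _ ⟨k, b', hb', hk, rfl⟩
      have hk' : 0 ≤ -k := by simpa using hk
      obtain ⟨n, hn⟩ := Int.eq_ofNat_of_zero_le hk'
      exact ⟨n, b', hb', by rw [show k = -(n : ℤ) by omega]; simp⟩

theorem descend (hG : ∃ n, Finite (Subgroup.lowerCentralSeries (⊤ : Subgroup G) n))
    {H : Subgroup G} (hH : Ser H) :
    ∀ y w : G, c.Hem (zpowers y ⊔ H) w → c.Ray := by
  induction hH with
  | bot E _ _ => intro y w h; exact c.ray_base h
  | step a H hH hc ih =>
    intro y w h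
    have := hH.normal
    have := (Ser.step a H hH hc).normal
    by_cases hw : w ∈ zpowers a ⊔ H
    · obtain ⟨v, hv⟩ := c.step (cyc1 y) hw h (ad_nil hG y) (fg_zsup a hH.fg)
      exact ih a v hv
    · obtain ⟨j, b, hb, e⟩ := mem_zsup.1 h.1
      have hj : j ≠ 0 := by
        rintro rfl
        exact hw (by simpa [e] using hb)
      have h1 : y ^ j ∈ zpowers w ⊔ (zpowers a ⊔ H) := by
        have : y ^ j = w * b⁻¹ := by rw [e]; group
        rw [this]
        exact mul_mem (mem_sup_left (mem_zpowers w)) (mem_sup_right (inv_mem hb))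
      have h2 : y ^ j.natAbs ∈ zpowers w ⊔ (zpowers a ⊔ H) := by
        rcases Int.natAbs_eq j with h3 | h3
        · rw [← zpow_natCast, ← h3]; exact h1
        · have : (j.natAbs : ℤ) = -j := by omega
          rw [← zpow_natCast, this, zpow_neg]; exact inv_mem h1
      have h3 := c.step_fin (cyc2 h.1) (mem_sup_left (mem_zpowers w)) h (ad_nil hG y)
        (Int.natAbs_pos.2 hj) h2
      obtain ⟨v, hv⟩ := c.step (cyc3 hc w) (mem_sup_left (mem_zpowers w)) h3 (ad_nil hG a)
        (fg_zsup w hH.fg)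
      exact ih w v hv

theorem ray_of_hem [Group.FG G]
    (hG : ∃ n, Finite (Subgroup.lowerCentralSeries (⊤ : Subgroup G) n)) {w : G}
    (h : c.Hem ⊤ w) : c.Ray :=
  c.descend hG (ser_top hG) 1 w (by rwa [sup_top_eq])

end Clo

end Pool.Agent.MP_b50e26_gt.Nil
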