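import Mathlib
import Pool.Agent.MP_b50e26_gt.Nil.Defs
import Pool.Agent.MP_b50e26_gt.Nil.Ser

/-! The coding closure operator of a finite cover, and the final counting argument. -/

set_option autoImplicit false

namespace Pool.Agent.MP_b50e26_gt.Nil

open Set Pointwise Filter Topology

variable {G : Type*} [Group G]

theorem Clo.Ray.window {c : Clo G} (h : c.Ray) :
    ∃ W : Finset G, ∀ B : Finset G, ∃ t : G, (B : Set G) * {t} ⊆ c.cl W := by
  classical
  obtain ⟨F, g, hF⟩ := h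
  set I : ℤ → ℤ → Set G := fun a b => {x | ∃ k : ℤ, a ≤ k ∧ k ≤ b ∧ x = g ^ k} with hI
  have hsh : ∀ a b s : ℤ, I a b * {g ^ s} ⊆ I (a + s) (b + s) := by
    rintro a b s _ ⟨_, ⟨k, h1, h2, rfl⟩, _, rfl, rfl⟩
    exact ⟨k + s, by omega, by omega, by rw [zpow_add]⟩
  have hmo : ∀ a b a' b' : ℤ, a' ≤ a → b ≤ b' → I a b ⊆ I a' b' := by
    rintro a b a' b' h1 h2 _ ⟨k, h3, h4, rfl⟩
    exact ⟨k, by omega, by omega, rfl⟩
  have hfin : ∀ B : Finset G, ∃ L : ℕ, (B : Set G) ⊆ c.cl ((F : Set G) * I 0 L) := by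
    intro B
    obtain ⟨D, hD, hBD⟩ := c.fin2 B (fun b _ => hF b)
    have : ∀ᶠ L : ℕ in atTop, ∀ d ∈ D, d ∈ I 0 L := by
      refine (eventually_all_finset D).2 fun d hd => ?_
      obtain ⟨n, rfl⟩ := hD hd
      filter_upwards [eventually_ge_atTop n] with L hL
      exact ⟨n, by omega, by omega, by simp⟩
    obtain ⟨L, hL⟩ := this.exists
    exact ⟨L, hBD.trans (c.mono (mul_subset_mul_left hL))⟩
  obtain ⟨J, hJ⟩ := hfin (F * {g⁻¹})
  have key : ∀ k : ℕ, (F : Set G) * I (-k) J ⊆ c.cl ((F : Set G) * I 0 J) := by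
    intro k
    induction k with
    | zero => simpa using c.sub _
    | succ k ih =>
      rintro _ ⟨f, hf, _, ⟨l, h1, h2, rfl⟩, rfl⟩
      by_cases h3 : -(k : ℤ) ≤ l
      · exact ih ⟨f, hf, _, ⟨l, h3, h2, rfl⟩, rfl⟩
      · have h4 : f * g⁻¹ ∈ c.cl ((F : Set G) * I 0 J) :=
          hJ (by rw [Finset.coe_mul]; exact mul_mem_mul hf (by simp))
        have h5 := c.mul _ _ (g ^ (-(k : ℤ))) h4
        have e : f * g⁻¹ * g ^ (-(k : ℤ)) = f * g ^ l := by
          rw [show l = -1 + -(k : ℤ) by push_cast at h1; omega]; group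
        rw [e, mul_assoc] at h5
        exact c.trans _ _ ((mul_subset_mul_left ((hsh _ _ _).trans
          (hmo _ _ _ _ (by omega) (by omega)))).trans ih) h5
  refine ⟨F * (Finset.Icc (0 : ℤ) J).image fun k => g ^ k, fun B => ?_⟩
  obtain ⟨L, hL⟩ := hfin B
  refine ⟨g ^ ((J : ℤ) - L), (c.push hL _).trans (c.trans _ _ ?_)⟩
  rw [mul_assoc]
  refine (mul_subset_mul_left ((hsh _ _ _).trans
    (hmo _ _ (-(L : ℤ)) J (by omega) (by omega)))).trans ((key L).trans (c.mono ?_))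
  rw [Finset.coe_mul]
  refine mul_subset_mul_left ?_
  rintro _ ⟨k, h1, h2, rfl⟩
  rw [Finset.coe_image]
  exact ⟨k, by simp [h1, h2], rfl⟩

theorem Clo.hem_of_real (c : Clo G) {S : Finset G} (hS : Subgroup.closure (S : Set G) = ⊤)
    (l : G → ℝ) (h : ∀ ψ : G → ℝ, IsChar ⊤ ψ → 0 ≤ ∑ s ∈ S, l s * ψ s → c.Exp ⊤ ψ) :
    ∃ w, c.Hem ⊤ w := by
  have h00 := h (fun _ => 0) (fun _ _ _ _ => by simp) (by simp)
  obtain ⟨F, hF⟩ := h00.gen
  have hK := c.isCompact_bad hS hF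
  obtain ⟨J, hJ⟩ := hK.elim_directed_cover
    (fun j : ℕ => {ψ : G → ℝ | ∑ s ∈ S, l s * ψ s < -(1 / ((j : ℝ) + 1))})
    (fun j => isOpen_lt (by fun_prop) continuous_const) (by
      intro ψ hψ
      have h1 : 0 < -∑ s ∈ S, l s * ψ s := by
        by_contra h2
        exact hψ.2 (h ψ hψ.1.1 (by linarith))
      obtain ⟨j, hj⟩ := exists_nat_one_div_lt h1
      exact mem_iUnion.2 ⟨j, by rw [mem_ofPred_eq]; linarith⟩)
    (Monotone.directed_le fun i j hij ψ hψ => by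
      rw [mem_ofPred_eq] at hψ ⊢
      have hij' : (i : ℝ) + 1 ≤ (j : ℝ) + 1 := by exact_mod_cast Nat.succ_le_succ hij
      have := one_div_le_one_div_of_le (by positivity) hij'
      linarith)
  have hJ0 : (0 : ℝ) < (J : ℝ) + 1 := by positivity
  have hw : ∀ (T : Finset G) (k : G → ℤ), ∃ w : G, ∀ ψ : G → ℝ, IsChar ⊤ ψ →
      ψ w = ∑ s ∈ T, k s * ψ s := by
    classical
    intro T k
    induction T using Finset.induction_on with
    | empty => exact ⟨1, fun ψ hψ => by simp [hψ.one]⟩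
    | insert a T ha ih =>
      obtain ⟨w, hw⟩ := ih
      exact ⟨a ^ k a * w, fun ψ hψ => by
        rw [hψ _ trivial _ trivial, hψ.zpow trivial, hw ψ hψ, Finset.sum_insert ha]⟩
  obtain ⟨w, hw⟩ := hw S fun s => ⌊((J : ℝ) + 1) * l s⌋
  refine ⟨w, trivial, fun ψ hψ h0 => ?_⟩
  by_contra he
  have hne : ∃ a ∈ (⊤ : Subgroup G), ψ a ≠ 0 := by
    by_contra h1
    push Not at h1
    exact he (h00.congr fun a ha _ => (h1 a ha).ge)
  obtain ⟨φ, hφ, r, hr, hφe⟩ := c.normalise hS hψ hne he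
  have h1 : ∑ s ∈ S, l s * φ s < -(1 / ((J : ℝ) + 1)) := hJ hφ
  have h2 : φ w ≤ ∑ s ∈ S, (((J : ℝ) + 1) * (l s * φ s) + |φ s|) := by
    rw [hw φ hφ.1.1]
    refine Finset.sum_le_sum fun s _ => ?_
    have h3 := Int.floor_le (((J : ℝ) + 1) * l s)
    have h4 := Int.lt_floor_add_one (((J : ℝ) + 1) * l s)
    rcases le_total 0 (φ s) with h5 | h5
    · rw [abs_of_nonneg h5]; nlinarith
    · rw [abs_of_nonpos h5]; nlinarith
  rw [Finset.sum_add_distrib, ← Finset.mul_sum, hφ.1.2.2] at h2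
  have h3 : ((J : ℝ) + 1) * ∑ s ∈ S, l s * φ s < -1 := by
    have := mul_lt_mul_of_pos_left h1 hJ0
    rwa [mul_neg, mul_one_div_cancel hJ0.ne'] at this
  rw [hφe w trivial] at h0
  nlinarith

section cover

variable {X : Type*} [MulAction G X] {n : ℕ} (U : Fin n → Set X)

def cell (k : G → Fin n) (F : Finset G) : Set X := {x | ∀ g ∈ F, g • x ∈ U (k g)}

def Ref (A : Set G) (V : Set (Set X)) : Prop :=
  ∀ k : G → Fin n, ∃ F : Finset G, (F : Set G) ⊆ A ∧ ∃ C ∈ V, cell U k F ⊆ C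

theorem Ref.unif {A : Set G} {V : Set (Set X)} (h : Ref U A V) :
    ∃ F : Finset G, (F : Set G) ⊆ A ∧ ∀ k : G → Fin n, ∃ C ∈ V, cell U k F ⊆ C := by
  classical
  have : Nonempty {F : Finset G // (F : Set G) ⊆ A} := ⟨⟨∅, by simp⟩⟩
  obtain ⟨F, hF⟩ := (isCompact_univ (X := G → Fin n)).elim_directed_cover
    (fun F : {F : Finset G // (F : Set G) ⊆ A} => {k | ∃ C ∈ V, cell U k F.1 ⊆ C})
    (fun F => by
      rw [isOpen_iff_mem_nhds]
      rintro k ⟨C, hC, hk⟩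
      have : ∀ᶠ k' : G → Fin n in 𝓝 k, ∀ g ∈ F.1, k' g = k g :=
        (eventually_all_finset F.1).2 fun g _ =>
          IsOpen.mem_nhds (s := (fun p : G → Fin n => p g) ⁻¹' {k g})
            ((isOpen_discrete _).preimage (continuous_apply g)) rfl
      filter_upwards [this] with k' hk'
      exact ⟨C, hC, fun x hx => hk fun g hg => hk' g hg ▸ hx g hg⟩)
    (fun k _ => by
      obtain ⟨F, hF, hC⟩ := h k
      exact mem_iUnion.2 ⟨⟨F, hF⟩, hC⟩)
    (fun F1 F2 => ⟨⟨F1.1 ∪ F2.1, by rw [Finset.coe_union]; exact union_subset F1.2 F2.2⟩,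
      fun k ⟨C, hC, hk⟩ => ⟨C, hC, fun x hx => hk fun g hg => hx g (Finset.mem_union_left _ hg)⟩,
      fun k ⟨C, hC, hk⟩ => ⟨C, hC, fun x hx => hk fun g hg => hx g (Finset.mem_union_right _ hg)⟩⟩)
  exact ⟨F.1, F.2, fun k => hF (mem_univ k)⟩

def code (A : Set G) : Set G := {b | Ref U A (range fun i => {x : X | b • x ∈ U i})}

theorem Ref.trans {A B : Set G} {V : Set (Set X)} (hB : B ⊆ code U A) (h : Ref U B V) :
    Ref U A V := by
  classical
  intro k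
  have h1 : ∀ b : G, ∃ (F : Finset G) (i : Fin n), b ∈ B →
      (F : Set G) ⊆ A ∧ cell U k F ⊆ {x : X | b • x ∈ U i} := by
    intro b
    by_cases hb : b ∈ B
    · obtain ⟨F, hF, _, ⟨i, rfl⟩, hC⟩ := hB hb k
      exact ⟨F, i, fun _ => ⟨hF, hC⟩⟩
    · exact ⟨∅, k b, fun h => absurd h hb⟩
  choose F i hF using h1
  obtain ⟨F', hF', C, hC, hk⟩ := h i
  refine ⟨F'.biUnion F, fun g hg => ?_, C, hC, fun x hx => hk fun b hb => ?_⟩
  · obtain ⟨b, hb, hg⟩ := Finset.mem_biUnion.1 hg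
    exact (hF b (hF' hb)).1 hg
  · exact (hF b (hF' hb)).2 fun g hg => hx g (Finset.mem_biUnion.2 ⟨b, hb, hg⟩)

theorem Ref.mul {A : Set G} {V : Set (Set X)} (h : Ref U A V) (t : G) :
    Ref U (A * {t}) ((fun C => {x : X | t • x ∈ C}) '' V) := by
  classical
  intro k
  obtain ⟨F, hF, C, hC, hk⟩ := h fun g => k (g * t)
  refine ⟨F.image (· * t), fun g hg => ?_, _, ⟨C, hC, rfl⟩, fun x hx => hk fun g hg => ?_⟩
  · obtain ⟨a, ha, rfl⟩ := Finset.mem_image.1 hg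
    exact ⟨a, hF ha, t, rfl, rfl⟩
  · have := hx (g * t) (Finset.mem_image_of_mem _ hg)
    rwa [mul_smul] at this

/-- The coding closure operator. -/
def clo : Clo G where
  cl := code U
  sub A b hb k := ⟨{b}, by simpa using hb, _, ⟨k b, rfl⟩, fun x hx => hx b (by simp)⟩
  trans A B h b hb := Ref.trans U h hb
  fin A b hb := by
    obtain ⟨F, hF, h⟩ := Ref.unif U hb
    exact ⟨F, hF, fun k => ⟨F, Subset.rfl, h k⟩⟩
  mul A b t hb k := by
    obtain ⟨F, hF, _, ⟨_, ⟨i, rfl⟩, rfl⟩, h⟩ := Ref.mul U hb t k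
    exact ⟨F, hF, _, ⟨i, rfl⟩, fun x hx => by simpa [mul_smul] using h hx⟩

variable [TopologicalSpace X] [ContinuousConstSMul G X]

theorem gen_of_refExp (hUo : ∀ i, IsOpen (U i)) (hUc : ⋃ i, U i = univ)
    (hU : ∀ V : Set (Set X), (∀ C ∈ V, IsOpen C) → ⋃₀ V = univ → Ref U (univ : Set G) V)
    {S : Set G} (h : RefExp X S) : ∃ F : Finset G, (clo U : Clo G).Gen ((F : Set G) * S) := by
  classical
  obtain ⟨m, U', h1, h2, h3⟩ := h
  obtain ⟨F, -, hF⟩ := (hU (range U') (by rintro _ ⟨i, rfl⟩; exact h1 i)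
    (by rw [sUnion_range, h2])).unif
  refine ⟨F, fun b k => ?_⟩
  have h4 : ∀ s : G, ∃ i, cell U (fun g => k (g * s)) F ⊆ U' i := fun s => by
    obtain ⟨_, ⟨i, rfl⟩, h⟩ := hF fun g => k (g * s)
    exact ⟨i, h⟩
  choose i hi using h4
  obtain ⟨F', hF', C, hC, hk⟩ := h3 (range fun i => {x : X | b • x ∈ U i})
    (by rintro _ ⟨i, rfl⟩; exact (hUo i).preimage (continuous_const_smul b))
    (by
      rw [sUnion_range, eq_univ_iff_forall]
      intro x
      obtain ⟨i, hi⟩ := mem_iUnion.1 (hUc ▸ mem_univ (b • x))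
      exact mem_iUnion.2 ⟨i, hi⟩) i
  refine ⟨F * F', by rw [Finset.coe_mul]; exact mul_subset_mul_left hF', C, hC,
    fun x hx => hk fun s hs => hi s fun g hg => ?_⟩
  have := hx (g * s) (Finset.mul_mem_mul hg hs)
  rwa [mul_smul] at this

omit [ContinuousConstSMul G X] in
theorem finite_of_ray (hUc : ⋃ i, U i = univ)
    (hU : ∀ V : Set (Set X), (∀ C ∈ V, IsOpen C) → ⋃₀ V = univ → Ref U (univ : Set G) V)
    (h : (clo U : Clo G).Ray) : {x : X | IsClosed ({x} : Set X)}.Finite := by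
  classical
  obtain ⟨W, hW⟩ := h.window
  by_contra hinf
  obtain ⟨Y, hY, hcard⟩ := Set.Infinite.exists_subset_card_eq hinf (Fintype.card (W → Fin n) + 1)
  have hne : Y.Nonempty := Finset.card_pos.1 (by omega)
  set V : Set (Set X) := (fun y => (↑(Y.erase y) : Set X)ᶜ) '' Y with hV
  obtain ⟨B, -, hB⟩ := (hU V (by
      rintro _ ⟨y, -, rfl⟩
      rw [isOpen_compl_iff, ← biUnion_of_singleton (↑(Y.erase y) : Set X)]
      exact (Finset.finite_toSet _).isClosed_biUnion fun z hz =>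
        hY (Finset.mem_of_mem_erase hz)) (by
      rw [eq_univ_iff_forall]
      intro x
      by_cases hx : x ∈ Y
      · exact ⟨_, ⟨x, hx, rfl⟩, by simp⟩
      · obtain ⟨y, hy⟩ := hne
        exact ⟨_, ⟨y, hy, rfl⟩, by simp [hx]⟩)).unif
  obtain ⟨t, ht⟩ := hW B
  have h1 : Ref U (W : Set G) ((fun C => {x : X | t • x ∈ C}) '' V) :=
    Ref.trans U ht (Ref.mul U (fun k => ⟨B, Subset.rfl, hB k⟩) t)
  have h2 : ∀ x : X, ∃ i, x ∈ U i := fun x => mem_iUnion.1 (hUc ▸ mem_univ x)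
  choose i hi using h2
  obtain ⟨y1, hy1, y2, hy2, hne', he⟩ := Finset.exists_ne_map_eq_of_card_lt_of_maps_to
    (s := Y) (t := (Finset.univ : Finset (W → Fin n))) (by rw [hcard]; simp)
    (f := fun y (g : W) => i ((g : G) • t⁻¹ • y)) (fun _ _ => by simp)
  obtain ⟨F, hF, _, ⟨_, ⟨y, hy, rfl⟩, rfl⟩, hk⟩ := h1 fun g => i (g • t⁻¹ • y1)
  have h3 := hk (show t⁻¹ • y1 ∈ _ from fun g _ => hi _)
  have h4 := hk (show t⁻¹ • y2 ∈ _ from fun g hg => by
    have := congrFun he ⟨g, hF hg⟩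
    simp only at this ⊢
    rw [this]; exact hi _)
  simp only [mem_ofPred_eq, smul_inv_smul, mem_compl_iff, Finset.mem_coe, Finset.mem_erase,
    hy1, hy2, and_true, not_not] at h3 h4
  exact hne' (h3.trans h4.symm)

end cover

end Pool.Agent.MP_b50e26_gt.Nil
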