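import Mathlib
import Pool.Agent.MP_b50e26_gt.Nil.Top

/-! Non-expansive characters in every half-space, for finitely generated finite-by-nilpotent groups. -/

set_option autoImplicit false

namespace Pool.Agent.MP_b50e26_gt.Nil

open Set Pointwise

theorem main {G X : Type*} [Group G] [Group.FG G]
    (hG : ∃ n, Finite (Subgroup.lowerCentralSeries (⊤ : Subgroup G) n))
    [TopologicalSpace X] [MulAction G X] [ContinuousConstSMul G X]
    (hX : {x : X | IsClosed ({x} : Set X)}.Infinite) (L : (Additive G →+ ℝ) →ₗ[ℝ] ℝ) :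
    ∃ χ : Additive G →+ ℝ, 0 ≤ L χ ∧ ¬ RefExp X {g : G | 0 ≤ χ (Additive.ofMul g)} := by
  classical
  by_contra hc
  push Not at hc
  obtain ⟨n, U, hUo, hUc, hU0⟩ := hc 0 (by simp)
  have hU : ∀ V : Set (Set X), (∀ C ∈ V, IsOpen C) → ⋃₀ V = univ → Ref U (univ : Set G) V :=
    fun V h1 h2 k => by
      obtain ⟨F, -, hF⟩ := hU0 V h1 h2 k
      exact ⟨F, subset_univ _, hF⟩
  obtain ⟨S, hS⟩ := Group.fg_def.1 ‹Group.FG G›
  let ev : (Additive G →+ ℝ) →ₗ[ℝ] (S → ℝ) :=
    { toFun := fun χ s => χ (Additive.ofMul (s : G))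
      map_add' := fun _ _ => rfl
      map_smul' := fun _ _ => rfl }
  have hev : LinearMap.ker ev = ⊥ := by
    rw [LinearMap.ker_eq_bot']
    intro χ h
    ext g
    have hg : g ∈ Subgroup.closure (S : Set G) := hS ▸ Subgroup.mem_top g
    show χ (Additive.ofMul g) = 0
    induction hg using Subgroup.closure_induction with
    | mem s hs => exact congrFun h ⟨s, hs⟩
    | one => simp
    | mul x y _ _ ihx ihy => rw [ofMul_mul, map_add, ihx, ihy, add_zero]
    | inv x _ ih => rw [ofMul_inv, map_neg, ih, neg_zero]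
  obtain ⟨r, hr⟩ := ev.exists_leftInverse_of_injective hev
  obtain ⟨w, hw⟩ := (clo U : Clo G).hem_of_real hS
    (fun g => if h : g ∈ S then L (r fun j => if (⟨g, h⟩ : S) = j then 1 else 0) else 0)
    fun ψ hψ h0 => by
      let χ : Additive G →+ ℝ := AddMonoidHom.mk' (fun g => ψ (Additive.toMul g))
        fun a b => hψ _ trivial _ trivial
      have h1 : L χ = (L.comp r) (ev χ) := by
        rw [LinearMap.comp_apply, ← LinearMap.comp_apply r ev, hr]; rfl
      rw [LinearMap.pi_apply_eq_sum_univ] at h1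
      obtain ⟨F, hF⟩ := gen_of_refExp U hUo hUc hU (hc χ (by
        rw [h1]
        rw [← Finset.sum_coe_sort] at h0
        refine h0.trans_eq (Finset.sum_congr rfl fun s _ => ?_)
        rw [dif_pos s.2, smul_eq_mul, mul_comm]
        rfl))
      exact ⟨F, hF.mono (mul_subset_mul_left fun g hg => ⟨trivial, by rw [neg_zero]; exact hg⟩)⟩
  exact hX (finite_of_ray U hUc hU ((clo U : Clo G).ray_of_hem hG hw))

end Pool.Agent.MP_b50e26_gt.Nil
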