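import Mathlib
import Pool.Agent.MP_b50e26_gt.Defs
import Pool.Agent.MP_b50e26_gt.Nil.Main

/-! Sanity check (not a hand-in): the case of the integers is the question of the problem file. -/

set_option autoImplicit false

namespace Pool.Agent.MP_b50e26_gt.Nil

open Set

theorem of_nilpotent (G : Type*) [Group G] [h : Group.IsNilpotent G] :
    ∃ n, Finite (Subgroup.lowerCentralSeries (⊤ : Subgroup G) n) := by
  obtain ⟨n, hn⟩ := Subgroup.nilpotent_iff_lowerCentralSeries.1 h
  exact ⟨n, by rw [hn]; infer_instance⟩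

theorem q1 {X : Type*} [TopologicalSpace X] [T1Space X] (f : X ≃ₜ X) (h : PosRefExp f) :
    Finite X := by
  by_contra hX
  rw [not_finite_iff_infinite] at hX
  let _ : MulAction (Multiplicative ℤ) X :=
    { smul := fun g x => (f ^ g.toAdd) x
      one_smul := fun x => by show (f ^ (0 : ℤ)) x = x; simp
      mul_smul := fun a b x => by
        show (f ^ (a.toAdd + b.toAdd)) x = (f ^ a.toAdd) ((f ^ b.toAdd) x)
        rw [zpow_add]; rfl }
  have _ : ContinuousConstSMul (Multiplicative ℤ) X := ⟨fun g => (f ^ g.toAdd).continuous⟩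
  obtain ⟨χ, h1, h2⟩ := main (G := Multiplicative ℤ) (X := X) (of_nilpotent _)
    (by simpa using infinite_univ)
    { toFun := fun χ => χ (Additive.ofMul (Multiplicative.ofAdd 1))
      map_add' := fun _ _ => rfl
      map_smul' := fun _ _ => rfl }
  obtain ⟨n, U, hUo, hUc, hU⟩ := h
  refine h2 ⟨n, U, hUo, hUc, fun V hVo hVc k => ?_⟩
  obtain ⟨N, C, hC, hN⟩ := hU V hVo hVc fun j => k (Multiplicative.ofAdd (j : ℤ))
  refine ⟨(Finset.range (N + 1)).image fun j : ℕ => Multiplicative.ofAdd (j : ℤ), ?_, C, hC,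
    fun x hx => hN ?_⟩
  · intro g hg
    obtain ⟨j, -, rfl⟩ := Finset.mem_image.1 hg
    have e : Additive.ofMul (Multiplicative.ofAdd (j : ℤ)) =
        j • Additive.ofMul (Multiplicative.ofAdd (1 : ℤ)) := by
      rw [← ofMul_pow, ← ofAdd_nsmul]; simp
    show 0 ≤ χ _
    rw [e, map_nsmul]
    exact nsmul_nonneg h1 j
  · refine mem_iInter₂.2 fun j hj => ?_
    have := hx _ (Finset.mem_image_of_mem _ (Finset.mem_range.2 (Nat.lt_succ_of_le hj)))
    have e : ∀ (m : ℕ) (y : X), (f ^ m) y = f^[m] y := by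
      intro m
      induction m with
      | zero => intro y; rfl
      | succ m ih => intro y; rw [pow_succ, Function.iterate_succ_apply, ← ih]; rfl
    show f^[j] x ∈ U _
    rw [← e, ← zpow_natCast]
    exact this

end Pool.Agent.MP_b50e26_gt.Nil
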